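import Pool.Agent.SplAk.Defs

set_option autoImplicit false

/-!
# The inverse Ackermann hierarchy
-/

namespace Pool.Agent.SplAk

/-- **Module AK_AL1.**  HINT.  `sInf {j | f^[j] n ≤ 1} = 0` if `n ≤ 1` (`j = 0` is a member; `Nat.sInf_eq_zero`). -/
theorem alp_small (k : ℕ) {n : ℕ} (h : n ≤ 1) : alp (k + 1) n = 0 := by
  have h0 : (0 : ℕ) ∈ {j | (alp k)^[j] n ≤ 1} := h
  show sInf {j | (alp k)^[j] n ≤ 1} = 0
  exact Nat.le_zero.1 (Nat.sInf_le h0)

/-- The set of the numbers of iterations is not empty. -/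
private theorem AK_AL1_ne (k : ℕ) (hk : ∀ n, 2 ≤ n → alp k n < n) (n : ℕ) :
    ∃ j, (alp k)^[j] n ≤ 1 := by
  induction n using Nat.strong_induction_on with
  | _ n ih =>
    by_cases h : n ≤ 1
    · exact ⟨0, h⟩
    · obtain ⟨j, hj⟩ := ih _ (hk n (by omega))
      exact ⟨j + 1, by rw [Function.iterate_succ_apply]; exact hj⟩

private theorem AK_AL1_rec (k : ℕ) (hk : ∀ n, 2 ≤ n → alp k n < n) {n : ℕ} (h : 2 ≤ n) :
    alp (k + 1) n = 1 + alp (k + 1) (alp k n) := by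
  have m1 : sInf {j | (alp k)^[j] (alp k n) ≤ 1} ∈ {j | (alp k)^[j] (alp k n) ≤ 1} :=
    Nat.sInf_mem (AK_AL1_ne k hk (alp k n))
  have m2 : sInf {j | (alp k)^[j] n ≤ 1} ∈ {j | (alp k)^[j] n ≤ 1} :=
    Nat.sInf_mem (AK_AL1_ne k hk n)
  show sInf {j | (alp k)^[j] n ≤ 1} = 1 + sInf {j | (alp k)^[j] (alp k n) ≤ 1}
  apply le_antisymm
  · apply Nat.sInf_le
    show (alp k)^[1 + sInf {j | (alp k)^[j] (alp k n) ≤ 1}] n ≤ 1
    rw [add_comm 1, Function.iterate_succ_apply]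
    exact m1
  · obtain ⟨i, hi⟩ : ∃ i, sInf {j | (alp k)^[j] n ≤ 1} = i + 1 := by
      refine Nat.exists_eq_succ_of_ne_zero fun h0 => ?_
      rw [h0] at m2
      have h1 : n ≤ 1 := m2
      omega
    rw [hi] at m2 ⊢
    have h1 : (alp k)^[i] (alp k n) ≤ 1 := by
      have h2 : (alp k)^[i + 1] n ≤ 1 := m2
      rwa [Function.iterate_succ_apply] at h2
    have h3 : sInf {j | (alp k)^[j] (alp k n) ≤ 1} ≤ i := Nat.sInf_le h1
    omega

private theorem AK_AL1_all (k : ℕ) : ∀ n : ℕ, 2 ≤ n → 1 ≤ alp k n ∧ alp k n < n := by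
  induction k with
  | zero =>
    intro n hn
    show 1 ≤ (n + 1) / 2 ∧ (n + 1) / 2 < n
    omega
  | succ k ih =>
    intro n
    induction n using Nat.strong_induction_on with
    | _ n ih' =>
      intro hn
      have e := AK_AL1_rec k (fun n h => (ih n h).2) hn
      have h1 := ih n hn
      by_cases h2 : 2 ≤ alp k n
      · have h3 := ih' _ h1.2 h2
        omega
      · have h4 : alp (k + 1) (alp k n) = 0 := alp_small k (by omega)
        omega

/-- **Module AK_AL1.**  HINT.  Together by induction on `k`: (1) `alp k n < n` for `n ≥ 2` (and `1 ≤ alp k n`); (2) the set `{j | (alp k)^[j] n ≤ 1}` is not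
empty (strong induction on `n`, (1)); (3) `alp (k+1) n = 1 + alp (k+1) (alp k n)` for `n ≥ 2`: `f^[j+1] n = f^[j] (f n)`, `0` is not a member;
(4) `alp (k+1) n ≤ n - 1` by strong induction with (3). -/
theorem alp_lt (k : ℕ) {n : ℕ} (h : 2 ≤ n) : 1 ≤ alp k n ∧ alp k n < n := by
  exact AK_AL1_all k n h

/-- **Module AK_AL1.** -/
theorem alp_rec (k : ℕ) {n : ℕ} (h : 2 ≤ n) : alp (k + 1) n = 1 + alp (k + 1) (alp k n) := by
  exact AK_AL1_rec k (fun n h => (AK_AL1_all k n h).2) h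

/-- **Module AK_AL2.**  HINT.  Induction on `k`.  `k = 0`: division.  `k + 1`: if `n ≤ n'` then `(alp k)^[j] n ≤ (alp k)^[j] n'` (`Monotone.iterate`), so the least
`j` for `n'` is a member of the set of `n` (`Nat.sInf_le`, `Nat.sInf_mem`; for `n' ≤ 1` use `alp_small`; the set of `n'` is not empty:
if it were empty then `sInf = 0`, but `alp (k+1) n' ≥ 1` by `alp_lt` for `n' ≥ 2`). -/
theorem alp_mono (k : ℕ) : Monotone (alp k) := by
  induction k with
  | zero =>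
    intro a b hab
    show (a + 1) / 2 ≤ (b + 1) / 2
    omega
  | succ k ih =>
    intro a b hab
    have m2 : sInf {j | (alp k)^[j] b ≤ 1} ∈ {j | (alp k)^[j] b ≤ 1} :=
      Nat.sInf_mem (AK_AL1_ne k (fun n h => (AK_AL1_all k n h).2) b)
    show sInf {j | (alp k)^[j] a ≤ 1} ≤ sInf {j | (alp k)^[j] b ≤ 1}
    apply Nat.sInf_le
    have h1 : (alp k)^[sInf {j | (alp k)^[j] b ≤ 1}] b ≤ 1 := m2
    exact le_trans ((ih.iterate _) hab) h1

/-- **Module AK_AL2.**  HINT.  `alp_rec`; with `x = alp k n ≥ 1`: `x = 1`: `alp_small`; `x ≥ 2`: `alp (k+1) x < x`. -/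
theorem alp_anti (k : ℕ) {n : ℕ} (h : 2 ≤ n) : alp (k + 1) n ≤ alp k n := by
  have h1 := alp_lt k h
  rw [alp_rec k h]
  by_cases h2 : 2 ≤ alp k n
  · have h3 := (alp_lt (k + 1) h2).2
    omega
  · have h4 : alp (k + 1) (alp k n) = 0 := alp_small k (by omega)
    omega

/-- **Module AK_AL2.**  HINT.  Strong induction on `n` with `alp_rec 0` and `Nat.clog_of_two_le` (`clog 2 n = clog 2 ((n + 1) / 2) + 1`). -/
theorem alp_one (n : ℕ) : alp 1 n = Nat.clog 2 n := by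
  induction n using Nat.strong_induction_on with
  | _ n ih =>
    by_cases h : n ≤ 1
    · rw [alp_small 0 h, Nat.clog_of_right_le_one h]
    · have h2 : 2 ≤ n := by omega
      have h3 : alp 0 n = (n + 2 - 1) / 2 := by
        show (n + 1) / 2 = (n + 2 - 1) / 2
        rfl
      rw [alp_rec 0 h2, zero_add, ih _ (alp_lt 0 h2).2, h3, Nat.clog_of_two_le (by norm_num) h2]
      omega

/-- **Module AK_AL3.**  HINT.  Induction on `k`; `k = 0`: `alp_one`, `Nat.clog_pow`.  `k + 1`, `n ≥ 2` (so `2 ≤ 2 ^ clog 2 n`): `alp_rec` twice.  `n ≤ 1`: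
`alp_small`. -/
theorem alp_pow (k n : ℕ) : alp (k + 1) (2 ^ Nat.clog 2 n) = alp (k + 1) n := by
  induction k with
  | zero => rw [zero_add, alp_one, alp_one, Nat.clog_pow 2 _ (by norm_num)]
  | succ k ih =>
    by_cases h : n ≤ 1
    · rw [Nat.clog_of_right_le_one h, pow_zero, alp_small _ le_rfl, alp_small _ h]
    · have h2 : 2 ≤ n := by omega
      have h3 : 2 ≤ 2 ^ Nat.clog 2 n := le_trans h2 (Nat.le_pow_clog (by norm_num) n)
      rw [alp_rec (k + 1) h3, ih, ← alp_rec (k + 1) h2]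

private theorem AK_AL3_one (k : ℕ) {n : ℕ} (h : 2 ≤ n) : alp (k + 1) n ≤ Nat.clog 2 n := by
  induction k with
  | zero => rw [zero_add, alp_one]
  | succ k ih => exact le_trans (alp_anti (k + 1) h) ih

private theorem AK_AL3_two {d : ℕ} (h : 1 ≤ d) : 2 ≤ 2 ^ d := by
  have h1 : 2 ^ 1 ≤ 2 ^ d := Nat.pow_le_pow_right (by norm_num) h
  omega

/-- **Module AK_AL3.**  HINT.  `x := alp (k+1) (2^d) ≤ alp 1 (2^d) = d` (`alp_anti` iterated, `alp_one`, `Nat.clog_pow`), so `clog 2 x ≤ clog 2 d < d`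
(`d ≤ 2^(d-1)`, `Nat.clog_le_of_le_pow`). -/
theorem hh_lt (k : ℕ) {d : ℕ} (h : 1 ≤ d) : Nat.clog 2 (alp (k + 1) (2 ^ d)) < d := by
  have h1 := AK_AL3_one k (AK_AL3_two h)
  rw [Nat.clog_pow 2 _ (by norm_num)] at h1
  have h2 : alp (k + 1) (2 ^ d) ≤ 2 ^ (d - 1) := by
    refine le_trans h1 ?_
    have h3 : d - 1 < 2 ^ (d - 1) := Nat.lt_two_pow_self
    omega
  have h4 := Nat.clog_le_of_le_pow h2
  omega

/-- **Module AK_AL3.**  HINT.  `alp_rec` and `alp_pow (k+1) (alp (k+1) (2^d))`. -/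
theorem alp_hh (k : ℕ) {d : ℕ} (h : 1 ≤ d) :
    alp (k + 2) (2 ^ d) = 1 + alp (k + 2) (2 ^ Nat.clog 2 (alp (k + 1) (2 ^ d))) := by
  rw [alp_pow (k + 1), ← alp_rec (k + 1) (AK_AL3_two h)]

/-- **Module AK_AL3.**  HINT.  `alp_mono` and `Nat.le_pow_clog`. -/
theorem alp_fit (k d : ℕ) (h : ℕ) (hh : h = Nat.clog 2 (alp (k + 1) (2 ^ d))) :
    alp (k + 1) (2 ^ (d - h)) ≤ 2 ^ h := by
  have h1 : alp (k + 1) (2 ^ (d - h)) ≤ alp (k + 1) (2 ^ d) :=
    alp_mono (k + 1) (Nat.pow_le_pow_right (by norm_num) (Nat.sub_le d h))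
  refine le_trans h1 ?_
  rw [hh]
  exact Nat.le_pow_clog (by norm_num) _

private theorem AK_AL4_clog {x : ℕ} (h : 4 ≤ x) : Nat.clog 2 x + 2 ≤ x := by
  have h1 : x ≤ 2 ^ (x - 2) := by
    obtain ⟨y, rfl⟩ := Nat.exists_eq_add_of_le h
    rw [show 4 + y - 2 = y + 2 by omega, pow_add]
    have h2 : y < 2 ^ y := Nat.lt_two_pow_self
    omega
  have h2 := Nat.clog_le_of_le_pow h1
  omega

private theorem AK_AL4_dec (k : ℕ) {n : ℕ} (h : 4 ≤ alp (k + 1) n) :
    alp (k + 2) n < alp (k + 1) n := by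
  have hn : 2 ≤ n := by
    by_contra hc
    rw [alp_small k (by omega)] at h
    omega
  have h1 : alp (k + 2) (alp (k + 1) n) ≤ Nat.clog 2 (alp (k + 1) n) :=
    AK_AL3_one (k + 1) (by omega)
  have h2 := AK_AL4_clog h
  have h3 : alp (k + 2) n = 1 + alp (k + 2) (alp (k + 1) n) := alp_rec (k + 1) hn
  omega

private theorem AK_AL4_ne (n : ℕ) : ∃ k, alp (k + 1) n ≤ 3 := by
  by_contra hc
  push Not at hc
  have h1 : ∀ k, alp (k + 1) n + k ≤ alp 1 n := by
    intro k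
    induction k with
    | zero => rw [zero_add, add_zero]
    | succ k ih =>
      have h2 : alp (k + 1 + 1) n < alp (k + 1) n := AK_AL4_dec k (hc k)
      omega
  have h3 := h1 (alp 1 n)
  have h4 := hc (alp 1 n)
  omega

/-- **Module AK_AL4.**  HINT.  The set `{k | alp k n ≤ 3}` is not empty: if `alp k n ≥ 4` then `n ≥ 2` and
`alp (k+1+1) n = 1 + alp (k+2) (alp (k+1) n)`; with `x = alp (k+1) n ≥ 4`: `alp (k+2) x ≤ alp 1 x = clog 2 x ≤ x - 2`, so
`alp (k+2) n < alp (k+1) n`: the sequence decreases strictly while it is `≥ 4`.  For the second claim let `k = ialp n`; `Nat.sInf_mem`; if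
`k = 0` use `alp_anti 0` (or `alp_small`). -/
theorem ialp_spec (n : ℕ) : ∃ k, k ≤ ialp n ∧ alp (k + 1) n ≤ 3 := by
  have hm : ialp n ∈ {k | alp k n ≤ 3} := by
    obtain ⟨k, hk⟩ := AK_AL4_ne n
    exact Nat.sInf_mem ⟨k + 1, hk⟩
  have h0 : alp (ialp n) n ≤ 3 := hm
  rcases Nat.eq_zero_or_pos (ialp n) with h | h
  · refine ⟨0, Nat.zero_le _, ?_⟩
    rw [h] at h0
    by_cases h2 : 2 ≤ n
    · exact le_trans (alp_anti 0 h2) h0
    · rw [alp_small 0 (by omega)]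
      omega
  · refine ⟨ialp n - 1, Nat.sub_le _ _, ?_⟩
    rwa [Nat.sub_add_cancel h]

end Pool.Agent.SplAk
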