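import Pool.Agent.SplAk.Defs

set_option autoImplicit false

/-!
# Structures on larger blocks; idle blocks
-/

namespace Pool.Agent.SplAk

open Pool.Agent.SplLog Pool.Agent.SplPat Pool.Agent.SplLs

variable {S : Sys} {A D a b c e s t : ℕ} {P : ℕ → ℕ → ℕ}

private theorem AK_FU_mul (hbe : b ≤ e) (N : ℕ) : N * 2 ^ (e - b) * 2 ^ b = N * 2 ^ e := by
  rw [mul_assoc, ← pow_add, Nat.sub_add_cancel hbe]

/-- **Module AK_FU.**  HINT.  `SplLs.comp` with `cut_item` (`p = (e, N)`). -/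
theorem fam_up (hT : Thr S) (hT' : Thr S.mir) (hbe : b ≤ e) (hP : Fam S b c P) :
    Fam S e (8 * c + 3) (up S b e c P) := by
  intro t ht N h1 h2
  have hC := cut_item (b := b) (p := (e, N)) hbe
  refine comp hT hT' ht h1 h2 hC (fun i => P t i) (fun i => P (t + 1) i) ?_
  intro k hk
  simp only [Finset.mem_Ico] at hk
  refine hP t ht k ?_ ?_
  · calc 1 ≤ N * 2 ^ e := h1
      _ = N * 2 ^ (e - b) * 2 ^ b := (AK_FU_mul hbe N).symm
      _ ≤ k * 2 ^ b := Nat.mul_le_mul_right _ hk.1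
  · calc (k + 1) * 2 ^ b ≤ (N + 1) * 2 ^ (e - b) * 2 ^ b := Nat.mul_le_mul_right _ hk.2
      _ = (N + 1) * 2 ^ e := AK_FU_mul hbe (N + 1)
      _ ≤ S.top := h2

/-- **Module AK_FU.**  HINT.  `SplLs.cp_le` with `cut_item` (`p = (e, N)`); the number of pieces is `2^(e-b)`. -/
theorem cq_le (hbe : b ≤ e) {N : ℕ} (h1 : 1 ≤ N * 2 ^ e) (h2 : (N + 1) * 2 ^ e ≤ S.top)
    (hs : s ≤ S.m) : cq S b e c s N ≤ Kc c * 2 ^ (e - b) := by
  have h := cp_le hs h1 h2 (cut_item (b := b) (p := (e, N)) hbe) c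
  have hcard : (Finset.Ico (N * 2 ^ (e - b)) ((N + 1) * 2 ^ (e - b))).card = 2 ^ (e - b) := by
    rw [Nat.card_Ico, Nat.succ_mul, Nat.add_sub_cancel_left]
  have h' : cq S b e c s N ≤ ((4 * c + 1) * (2 * (8 * c + 5)) + 2) *
      (Finset.Ico (N * 2 ^ (e - b)) ((N + 1) * 2 ^ (e - b))).card := h
  rw [hcard] at h'
  exact h'

private theorem AK_BU_sum (f : ℕ → ℕ) (d u w : ℕ) (h : u ≤ w) :
    ∑ N ∈ Finset.Ico u w, ∑ i ∈ Finset.Ico (N * d) ((N + 1) * d), f i =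
      ∑ i ∈ Finset.Ico (u * d) (w * d), f i := by
  induction w, h using Nat.le_induction with
  | base => simp
  | succ w hw ih =>
    rw [Finset.sum_Ico_succ_top hw, ih]
    exact Finset.sum_Ico_consecutive _ (Nat.mul_le_mul_right _ hw)
      (Nat.mul_le_mul_right _ (Nat.le_succ w))

private theorem AK_BU_div (hbe : b ≤ e) {x : ℕ} (h : 2 ^ e ∣ x) :
    x / 2 ^ b = x / 2 ^ e * 2 ^ (e - b) := by
  obtain ⟨y, rfl⟩ := h
  have h1 : 2 ^ e * y = 2 ^ b * (2 ^ (e - b) * y) := by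
    rw [← mul_assoc, ← pow_add, Nat.add_sub_cancel' hbe]
  have h2 : 2 ^ e * y / 2 ^ e = y := Nat.mul_div_cancel_left _ (by positivity)
  rw [h2, h1, Nat.mul_div_cancel_left _ (by positivity), mul_comm]

/-- **Module AK_BU.**  HINT.  `∑_{N ∈ Ico u w} ∑_{i ∈ Ico (N d) ((N+1) d)} f i = ∑_{i ∈ Ico (u d) (w d)} f i` (induction on `w`, `Finset.sum_Ico_consecutive`),
`z.1 / 2^b = (z.1 / 2^e) * 2^(e-b)` for `2^e ∣ z.1`; for `z.1 ≤ z.2`. -/
theorem bs_up (hbe : b ≤ e) {z : ℕ × ℕ} (hz : z.1 ≤ z.2) (h1 : 2 ^ e ∣ z.1) (h2 : 2 ^ e ∣ z.2) :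
    bs (up S b e c P) e s z =
      2 * bs P b s z + ∑ N ∈ Finset.Ico (z.1 / 2 ^ e) (z.2 / 2 ^ e), cq S b e c s N := by
  have hle : z.1 / 2 ^ e ≤ z.2 / 2 ^ e := Nat.div_le_div_right hz
  show ∑ N ∈ Finset.Ico (z.1 / 2 ^ e) (z.2 / 2 ^ e), up S b e c P s N =
    2 * ∑ i ∈ Finset.Ico (z.1 / 2 ^ b) (z.2 / 2 ^ b), P s i + _
  rw [AK_BU_div hbe h1, AK_BU_div hbe h2, ← AK_BU_sum _ _ _ _ hle, Finset.mul_sum,
    ← Finset.sum_add_distrib]
  rfl

private theorem AK_ID1_rng (hR : Rng S A) (haA : a ≤ A) (hsa : s ≤ a) {N u : ℕ}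
    (hN : N ∈ blk S.m S.X a s u) : 1 ≤ N * 2 ^ s ∧ (N + 1) * 2 ^ s ≤ S.top := by
  rw [mem_blk, mem_act] at hN
  obtain ⟨w, hw, -, hX⟩ := hN
  have hk := S.req w hw
  have hlow : 2 ^ A ≤ S.X w := hR.low _ hk
  have htop : S.X w < 2 ^ (A + 1) := by
    have := (S.key _ hk).2
    rwa [hR.top] at this
  have e1 : 2 ^ (A - a) * 2 ^ a = 2 ^ A := by rw [← pow_add, Nat.sub_add_cancel haA]
  have e2 : 2 ^ (A + 1 - a) * 2 ^ a = 2 ^ (A + 1) := by
    rw [← pow_add, Nat.sub_add_cancel (by omega)]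
  have h1 : 2 ^ (A - a) ≤ S.X w / 2 ^ a := by
    rw [Nat.le_div_iff_mul_le (by positivity), e1]
    exact hlow
  have h2 : S.X w / 2 ^ a < 2 ^ (A + 1 - a) := by
    rw [Nat.div_lt_iff_lt_mul (by positivity), e2]
    exact htop
  rw [hX] at h1 h2
  have h3 : 1 ≤ N / 2 ^ (a - s) := le_trans Nat.one_le_two_pow h1
  have hNpos : 1 ≤ N := by
    by_contra hcon
    have : N = 0 := by omega
    subst this
    simp at h3
  constructor
  · exact Nat.mul_pos hNpos (by positivity)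
  · have h4 : N < 2 ^ (A + 1 - a) * 2 ^ (a - s) := by
      rw [← Nat.div_lt_iff_lt_mul (by positivity)]
      exact h2
    have e3 : 2 ^ (A + 1 - a) * 2 ^ (a - s) * 2 ^ s = 2 ^ (A + 1) := by
      rw [mul_assoc, ← pow_add, Nat.sub_add_cancel hsa, e2]
    calc (N + 1) * 2 ^ s ≤ 2 ^ (A + 1 - a) * 2 ^ (a - s) * 2 ^ s := Nat.mul_le_mul_right _ h4
      _ = S.top := by rw [e3, hR.top]

private theorem AK_ID1_cq (hR : Rng S A) (haA : a ≤ A) (hbs : b ≤ s) (hsa : s ≤ a) {N u w : ℕ}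
    (hN : N ∈ idb S.m S.X s a u) (hw : w ≤ S.m) : cq S b s c w N ≤ Kc c * 2 ^ (s - b) := by
  have h := AK_ID1_rng hR haA hsa (Finset.mem_sdiff.mp hN).1
  exact cq_le hbs h.1 h.2 hw

private theorem AK_ID1_big (hR : Rng S A) (haA : a ≤ A) (hbs : b ≤ s) (hsa : s ≤ a) {u w : ℕ}
    (hw : w ≤ S.m) (hd : 2 ^ a ∣ u) :
    ∑ N ∈ idb S.m S.X s a u, cq S b s c w N ≤ rq S.m S.X b s a c u := by
  have h1 : ∑ N ∈ idb S.m S.X s a u, cq S b s c w N ≤
      (idb S.m S.X s a u).card * (Kc c * 2 ^ (s - b)) := by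
    rw [← smul_eq_mul]
    exact Finset.sum_le_card_nsmul _ _ _ (fun N hN => AK_ID1_cq hR haA hbs hsa hN hw)
  have h2 : (idb S.m S.X s a u).card ≤ 2 ^ (a - s) * (act S.m S.X a u).card :=
    le_trans (Finset.card_le_card Finset.sdiff_subset) blk_card
  have h3 : rq S.m S.X b s a c u = Kc c * 2 ^ (s - b) *
      ((if 2 ^ s ∣ u ∧ 0 < u then (act S.m S.X s (u - 1)).card else 0) +
        2 ^ (a - s) * (act S.m S.X a u).card) := by
    unfold rq
    rw [if_pos hd]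
  rw [h3]
  calc ∑ N ∈ idb S.m S.X s a u, cq S b s c w N ≤
        (idb S.m S.X s a u).card * (Kc c * 2 ^ (s - b)) := h1
    _ ≤ (2 ^ (a - s) * (act S.m S.X a u).card) * (Kc c * 2 ^ (s - b)) :=
        Nat.mul_le_mul_right _ h2
    _ = Kc c * 2 ^ (s - b) * (2 ^ (a - s) * (act S.m S.X a u).card) := mul_comm _ _
    _ ≤ _ := Nat.mul_le_mul_left _ (Nat.le_add_left _ _)

/-- **Module AK_ID1.**  HINT.  If `2^a ∣ t+1`: `idb (t+1) ⊆ blk (t+1)` has at most `2^(a-s) * #act a (t+1)` elements (`blk_card`), each `cq ≤ Kc c 2^(s-b)`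
(`cq_le`; the block lies in `[1, S.top)`: it is contained in an active block of scale `a ≤ A`, compare `SplLs.blk_range`, proof: the active block
contains a request `X u ∈ [2^A, 2^(A+1))`).  If `2^a ∤ t+1` and `2^s ∣ t+1`: `blk (t+1) = blk t` (`act_succ`), so the new elements of `idb` are
in `act s t`.  If `2^s ∤ t+1`: `idb (t+1) = idb t`.  (`2^s ∣ 2^a`.)  Drop the elements which disappear (`Finset.sum_le_sum_of_subset`-like:
`idb (t+1) ⊆ idb t ∪ new`). -/
theorem idb_step (hR : Rng S A) (haA : a ≤ A) (hbs : b ≤ s) (hsa : s ≤ a) (ht : t + 1 < S.m) :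
    ∑ N ∈ idb S.m S.X s a (t + 1), cq S b s c (t + 1) N ≤
      ∑ N ∈ idb S.m S.X s a t, cq S b s c (t + 1) N + rq S.m S.X b s a c (t + 1) := by
  by_cases ha : 2 ^ a ∣ t + 1
  · exact le_trans (AK_ID1_big hR haA hbs hsa (by omega) ha) (Nat.le_add_left _ _)
  · have hblk : blk S.m S.X a s (t + 1) = blk S.m S.X a s t := by
      unfold blk
      rw [act_succ ha]
    by_cases hs : 2 ^ s ∣ t + 1
    · have hsub : idb S.m S.X s a (t + 1) ⊆ idb S.m S.X s a t ∪
          (act S.m S.X s t).filter (fun N => N ∈ idb S.m S.X s a (t + 1)) := by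
        intro N hN
        by_cases hNa : N ∈ act S.m S.X s t
        · exact Finset.mem_union_right _ (Finset.mem_filter.mpr ⟨hNa, hN⟩)
        · refine Finset.mem_union_left _ (Finset.mem_sdiff.mpr ⟨?_, hNa⟩)
          rw [← hblk]
          exact (Finset.mem_sdiff.mp hN).1
      have h1 : ∑ N ∈ idb S.m S.X s a (t + 1), cq S b s c (t + 1) N ≤
          ∑ N ∈ idb S.m S.X s a t, cq S b s c (t + 1) N +
          ∑ N ∈ (act S.m S.X s t).filter (fun N => N ∈ idb S.m S.X s a (t + 1)),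
            cq S b s c (t + 1) N := by
        refine le_trans (Finset.sum_le_sum_of_subset hsub) ?_
        rw [← Finset.sum_union_inter]
        exact Nat.le_add_right _ _
      have h2 : ∑ N ∈ (act S.m S.X s t).filter (fun N => N ∈ idb S.m S.X s a (t + 1)),
            cq S b s c (t + 1) N ≤ (act S.m S.X s t).card * (Kc c * 2 ^ (s - b)) := by
        refine le_trans (Finset.sum_le_card_nsmul _ _ (Kc c * 2 ^ (s - b))
          (fun N hN => AK_ID1_cq hR haA hbs hsa (Finset.mem_filter.mp hN).2 (by omega))) ?_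
        rw [smul_eq_mul]
        exact Nat.mul_le_mul_right _ (Finset.card_filter_le _ _)
      have h3 : rq S.m S.X b s a c (t + 1) = Kc c * 2 ^ (s - b) *
          ((act S.m S.X s t).card +
            (if 2 ^ a ∣ t + 1 then 2 ^ (a - s) * (act S.m S.X a (t + 1)).card else 0)) := by
        unfold rq
        rw [if_pos (show 2 ^ s ∣ t + 1 ∧ 0 < t + 1 from ⟨hs, Nat.succ_pos _⟩), Nat.add_sub_cancel]
      rw [h3]
      refine le_trans h1 (Nat.add_le_add_left (le_trans h2 ?_) _)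
      rw [mul_comm]
      exact Nat.mul_le_mul_left _ (Nat.le_add_right _ _)
    · have hid : idb S.m S.X s a (t + 1) = idb S.m S.X s a t := by
        unfold idb
        rw [hblk, act_succ hs]
      rw [hid]
      exact Nat.le_add_right _ _

/-- **Module AK_ID1.**  HINT.  As `idb_step` for `2^a ∣ 0`. -/
theorem idb_zero (hR : Rng S A) (haA : a ≤ A) (hbs : b ≤ s) (hsa : s ≤ a) :
    ∑ N ∈ idb S.m S.X s a 0, cq S b s c 0 N ≤ rq S.m S.X b s a c 0 := by
  exact AK_ID1_big hR haA hbs hsa (Nat.zero_le _) (dvd_zero _)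

private theorem AK_ID2_x (m : ℕ) (X : ℕ → ℕ) :
    ∑ u ∈ Finset.range m, (if 2 ^ s ∣ u ∧ 0 < u then (act m X s (u - 1)).card else 0) ≤
      (cells (2 ^ s) m X).card := by
  have h0 : ∑ t ∈ (Finset.range m).filter (fun t => 2 ^ s ∣ t), (act m X s t).card ≤
      (cells (2 ^ s) m X).card := by
    have := act_sum (m := m) (X := X) (le_refl s)
    simpa using this
  refine le_trans ?_ h0
  rw [← Finset.sum_filter]
  have hinj : Set.InjOn (fun u => u - 2 ^ s)
      (((Finset.range m).filter (fun u => 2 ^ s ∣ u ∧ 0 < u) : Finset ℕ) : Set ℕ) := by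
    intro u hu v hv huv
    simp only [Finset.coe_filter, Finset.mem_range, Set.mem_ofPred_eq] at hu hv
    have h1 := Nat.le_of_dvd hu.2.2 hu.2.1
    have h2 := Nat.le_of_dvd hv.2.2 hv.2.1
    simp only at huv
    omega
  have hval : ∀ u ∈ (Finset.range m).filter (fun u => 2 ^ s ∣ u ∧ 0 < u),
      (act m X s (u - 1)).card = (act m X s (u - 2 ^ s)).card := by
    intro u hu
    simp only [Finset.mem_filter, Finset.mem_range] at hu
    obtain ⟨-, ⟨k, rfl⟩, hpos⟩ := hu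
    have hk : 0 < k := Nat.pos_of_mul_pos_left hpos
    obtain ⟨j, rfl⟩ : ∃ j, k = j + 1 := ⟨k - 1, by omega⟩
    have hp : 0 < 2 ^ s := by positivity
    have e1 : (2 ^ s * (j + 1) - 1) / 2 ^ s = j := by
      rw [Nat.div_eq_iff hp]
      constructor
      · rw [mul_comm j, mul_add, mul_one]
        omega
      · rw [mul_add, mul_one, mul_comm j]
    have e2 : (2 ^ s * (j + 1) - 2 ^ s) / 2 ^ s = j := by
      have : 2 ^ s * (j + 1) - 2 ^ s = 2 ^ s * j := by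
        rw [mul_add, mul_one]
        omega
      rw [this, Nat.mul_div_cancel_left _ hp]
    rw [act_const (e1.trans e2.symm)]
  rw [Finset.sum_congr rfl hval,
    ← Finset.sum_image (f := fun t => (act m X s t).card) hinj]
  refine Finset.sum_le_sum_of_subset ?_
  intro t ht
  rw [Finset.mem_image] at ht
  obtain ⟨u, hu, rfl⟩ := ht
  simp only [Finset.mem_filter, Finset.mem_range] at hu ⊢
  exact ⟨by omega, Nat.dvd_sub hu.2.1 dvd_rfl⟩

private theorem AK_ID2_y (m : ℕ) (X : ℕ → ℕ) :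
    ∑ u ∈ Finset.range m, (if 2 ^ a ∣ u then 2 ^ (a - s) * (act m X a u).card else 0) ≤
      2 ^ (a - s) * (cells (2 ^ a) m X).card := by
  have h0 : ∑ t ∈ (Finset.range m).filter (fun t => 2 ^ a ∣ t), (act m X a t).card ≤
      (cells (2 ^ a) m X).card := by
    have := act_sum (m := m) (X := X) (le_refl a)
    simpa using this
  rw [← Finset.sum_filter, ← Finset.mul_sum]
  exact Nat.mul_le_mul_left _ h0

/-- **Module AK_ID2.**  HINT.  `2^b * (Kc c * 2^(s-b) * (x + 2^(a-s) * y)) = Kc c * (2^s x + 2^a y)`.  Sum of `y`: `act_sum` with `j = k = a`.  Sum of `x`: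
for `u > 0`, `2^s ∣ u` we have `act s (u-1) = act s (u - 2^s)` (`act_const`: `(u-1) / 2^s = (u - 2^s) / 2^s`), so after the injection `u ↦ u - 2^s`
the sum is at most the sum of `act_sum` with `j = k = s`. -/
theorem rq_sum (hH : Hyp S A D) (haA : a ≤ A) (hbs : b ≤ s) (hsa : s ≤ a) :
    2 ^ b * ∑ u ∈ Finset.range S.m, rq S.m S.X b s a c u ≤ 2 * Kc c * D := by
  have hx := AK_ID2_x (s := s) S.m S.X
  have hy := AK_ID2_y (a := a) (s := s) S.m S.X
  have hDs := hH.cells s (by omega)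
  have hDa := hH.cells a haA
  have e1 : 2 ^ b * 2 ^ (s - b) = 2 ^ s := by rw [← pow_add, Nat.add_sub_cancel' hbs]
  have e2 : 2 ^ s * 2 ^ (a - s) = 2 ^ a := by rw [← pow_add, Nat.add_sub_cancel' hsa]
  have hsum : ∑ u ∈ Finset.range S.m, rq S.m S.X b s a c u = Kc c * 2 ^ (s - b) *
      (∑ u ∈ Finset.range S.m, (if 2 ^ s ∣ u ∧ 0 < u then (act S.m S.X s (u - 1)).card else 0) +
       ∑ u ∈ Finset.range S.m, (if 2 ^ a ∣ u then 2 ^ (a - s) * (act S.m S.X a u).card else 0)) := by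
    rw [← Finset.sum_add_distrib, Finset.mul_sum]
    rfl
  rw [hsum]
  generalize (∑ u ∈ Finset.range S.m,
    (if 2 ^ s ∣ u ∧ 0 < u then (act S.m S.X s (u - 1)).card else 0)) = x at hx ⊢
  generalize (∑ u ∈ Finset.range S.m,
    (if 2 ^ a ∣ u then 2 ^ (a - s) * (act S.m S.X a u).card else 0)) = y at hy ⊢
  calc 2 ^ b * (Kc c * 2 ^ (s - b) * (x + y)) = Kc c * ((2 ^ b * 2 ^ (s - b)) * (x + y)) := by ring
    _ = Kc c * (2 ^ s * (x + y)) := by rw [e1]
    _ ≤ Kc c * (2 ^ s * ((cells (2 ^ s) S.m S.X).card +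
        2 ^ (a - s) * (cells (2 ^ a) S.m S.X).card)) :=
        Nat.mul_le_mul_left _ (Nat.mul_le_mul_left _ (Nat.add_le_add hx hy))
    _ = Kc c * (2 ^ s * (cells (2 ^ s) S.m S.X).card +
        (2 ^ s * 2 ^ (a - s)) * (cells (2 ^ a) S.m S.X).card) := by ring
    _ = Kc c * (2 ^ s * (cells (2 ^ s) S.m S.X).card +
        2 ^ a * (cells (2 ^ a) S.m S.X).card) := by rw [e2]
    _ ≤ Kc c * (D + D) := Nat.mul_le_mul_left _ (Nat.add_le_add hDs hDa)
    _ = 2 * Kc c * D := by ring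

end Pool.Agent.SplAk
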