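import Pool.Agent.SplAk.Defs

set_option autoImplicit false

/-!
# The constants
-/

namespace Pool.Agent.SplAk

/-- **Module AK_CS.**  HINT.  Induction on `k`: `cn 0 c0 + 1 = 512 c0 + 220`; `cn (k+1) c0 + 1 = 8 cn k c1 + 4 ≤ 8 (cn k c1 + 1)`, `c1 + 1 = 8 c0 + 4`. -/
theorem cn_le (k c0 : ℕ) : cn k c0 + 1 ≤ 8 ^ (2 * k + 3) * (c0 + 1) := by
  induction k generalizing c0 with
  | zero =>
    show 8 * (8 * (8 * c0 + 3) + 3) + 3 + 1 ≤ 8 ^ (2 * 0 + 3) * (c0 + 1)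
    norm_num
    omega
  | succ k ih =>
    have h := ih (8 * c0 + 3)
    have e : 8 ^ (2 * (k + 1) + 3) = 64 * 8 ^ (2 * k + 3) := by
      rw [show 2 * (k + 1) + 3 = (2 * k + 3) + 2 by ring, pow_add]
      ring
    show 8 * cn k (8 * c0 + 3) + 3 + 1 ≤ 8 ^ (2 * (k + 1) + 3) * (c0 + 1)
    rw [e]
    have h2 : 8 ^ (2 * k + 3) * (8 * c0 + 3 + 1) ≤ 8 ^ (2 * k + 3) * (8 * (c0 + 1)) :=
      Nat.mul_le_mul_left _ (by omega)
    have h3 : 64 * 8 ^ (2 * k + 3) * (c0 + 1) = 8 * (8 ^ (2 * k + 3) * (8 * (c0 + 1))) := by ring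
    rw [h3]
    omega

/-- **Module AK_CS.** -/
theorem Kc_le (c : ℕ) : Kc c ≤ 64 * (c + 1) ^ 2 := by
  unfold Kc
  nlinarith

/-- **Module AK_CS.**  HINT.  `mn k = 8 * 4^k`. -/
theorem mn_le (k : ℕ) : mn k ≤ 8 * 4 ^ k := by
  induction k with
  | zero => exact le_refl _
  | succ k ih =>
    show 4 * mn k ≤ 8 * 4 ^ (k + 1)
    rw [pow_succ]
    omega

private theorem AK_CS_two (a b : ℕ) (h : a ≤ b) : 2 ^ a ≤ 2 ^ b := Nat.pow_le_pow_right (by norm_num) h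

private theorem AK_CS_e1 (c0 : ℕ) : (8 * c0 + 3 + 1) ^ 2 ≤ 64 * (c0 + 1) ^ 2 := by
  calc (8 * c0 + 3 + 1) ^ 2 ≤ (8 * (c0 + 1)) ^ 2 := Nat.pow_le_pow_left (by omega) 2
    _ = 64 * (c0 + 1) ^ 2 := by ring

private theorem AK_CS_e3 (c0 : ℕ) : (8 * (8 * c0 + 3) + 3 + 1) ^ 2 ≤ 4096 * (c0 + 1) ^ 2 := by
  calc (8 * (8 * c0 + 3) + 3 + 1) ^ 2 ≤ (64 * (c0 + 1)) ^ 2 := Nat.pow_le_pow_left (by omega) 2
    _ = 4096 * (c0 + 1) ^ 2 := by ring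

/-- **Module AK_CS.**  HINT.  Induction on `k` for all `c0`.  `rn 0 c0 ≤ (4*64*64 + 8*64 + 2*64*4096) (c0+1)^2 ≤ 2^20 (c0+1)^2`.  Step (`c1 = 8 c0 + 3`, `c1 + 1 ≤ 8 (c0+1)`):
`rn (k+1) c0 ≤ 2 * 2^(20(k+1)) * 64 (c0+1)^2 + 4 * 8 * 4^k * 64 (c0+1)^2 + 128 * (8^(2k+4))^2 (c0+1)^2`, and
`2^(20k+27) + 2^(2k+11) + 2^(12k+31) ≤ 2^(20k+40)`. -/
theorem rn_le (k c0 : ℕ) : rn k c0 ≤ 2 ^ (20 * (k + 1)) * (c0 + 1) ^ 2 := by
  induction k generalizing c0 with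
  | zero =>
    show 2 * (2 * Kc (8 * c0 + 3) + 4 * Kc c0) + 2 * Kc (8 * (8 * c0 + 3) + 3) ≤
      2 ^ (20 * (0 + 1)) * (c0 + 1) ^ 2
    have h1 := Kc_le (8 * c0 + 3)
    have h2 := Kc_le c0
    have h3 := Kc_le (8 * (8 * c0 + 3) + 3)
    have e1 := AK_CS_e1 c0
    have e3 := AK_CS_e3 c0
    norm_num
    omega
  | succ k ih =>
    show 2 * (rn k (8 * c0 + 3) + 2 * mn k * Kc c0) + 2 * Kc (cn k (8 * c0 + 3)) ≤
      2 ^ (20 * (k + 1 + 1)) * (c0 + 1) ^ 2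
    have h1 := ih (8 * c0 + 3)
    have h2 := Kc_le c0
    have h3 := Kc_le (cn k (8 * c0 + 3))
    have h4 := cn_le k (8 * c0 + 3)
    have h5 := mn_le k
    have e1 := AK_CS_e1 c0
    set y := (c0 + 1) ^ 2 with hy
    have i1 : 2 * rn k (8 * c0 + 3) ≤ 2 ^ (20 * k + 27) * y := by
      calc 2 * rn k (8 * c0 + 3) ≤ 2 * (2 ^ (20 * (k + 1)) * (64 * y)) :=
            Nat.mul_le_mul_left _ (h1.trans (Nat.mul_le_mul_left _ e1))
        _ = 2 ^ (20 * k + 27) * y := by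
            rw [show 20 * (k + 1) = 20 * k + 20 by ring, pow_add, pow_add]
            ring
    have i2 : 2 * (2 * mn k * Kc c0) ≤ 2 ^ (2 * k + 11) * y := by
      calc 2 * (2 * mn k * Kc c0) ≤ 2 * (2 * (8 * 4 ^ k) * (64 * y)) :=
            Nat.mul_le_mul_left _ (Nat.mul_le_mul (Nat.mul_le_mul_left _ h5) h2)
        _ = 2 ^ (2 * k + 11) * y := by
            rw [pow_add, pow_mul]
            ring
    have i3 : 2 * Kc (cn k (8 * c0 + 3)) ≤ 2 ^ (12 * k + 31) * y := by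
      have h4' : cn k (8 * c0 + 3) + 1 ≤ 8 ^ (2 * k + 4) * (c0 + 1) := by
        have h8 : (8 : ℕ) ^ (2 * k + 4) = 8 ^ (2 * k + 3) * 8 := pow_succ _ _
        calc cn k (8 * c0 + 3) + 1 ≤ 8 ^ (2 * k + 3) * (8 * c0 + 3 + 1) := h4
          _ ≤ 8 ^ (2 * k + 3) * (8 * (c0 + 1)) := Nat.mul_le_mul_left _ (by omega)
          _ = 8 ^ (2 * k + 4) * (c0 + 1) := by rw [h8, mul_assoc]
      calc 2 * Kc (cn k (8 * c0 + 3)) ≤ 2 * (64 * (8 ^ (2 * k + 4) * (c0 + 1)) ^ 2) :=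
            Nat.mul_le_mul_left _ (h3.trans (Nat.mul_le_mul_left _ (Nat.pow_le_pow_left h4' 2)))
        _ = 2 ^ (12 * k + 31) * y := by
            rw [hy, mul_pow, ← pow_mul, show (8 : ℕ) = 2 ^ 3 by norm_num, ← pow_mul,
              show 3 * ((2 * k + 4) * 2) = 12 * k + 24 by ring, pow_add, pow_add]
            ring
    have j1 : 2 ^ (20 * k + 27) + 2 ^ (2 * k + 11) + 2 ^ (12 * k + 31) ≤ 2 ^ (20 * (k + 1 + 1)) := by
      have a1 := AK_CS_two (20 * k + 27) (20 * k + 38) (by omega)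
      have a2 := AK_CS_two (2 * k + 11) (20 * k + 38) (by omega)
      have a3 := AK_CS_two (12 * k + 31) (20 * k + 38) (by omega)
      have a4 : 2 ^ (20 * (k + 1 + 1)) = 4 * 2 ^ (20 * k + 38) := by
        rw [show 20 * (k + 1 + 1) = (20 * k + 38) + 2 by ring, pow_add]
        ring
      omega
    calc 2 * (rn k (8 * c0 + 3) + 2 * mn k * Kc c0) + 2 * Kc (cn k (8 * c0 + 3))
        = 2 * rn k (8 * c0 + 3) + 2 * (2 * mn k * Kc c0) + 2 * Kc (cn k (8 * c0 + 3)) := by ring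
      _ ≤ 2 ^ (20 * k + 27) * y + 2 ^ (2 * k + 11) * y + 2 ^ (12 * k + 31) * y :=
          Nat.add_le_add (Nat.add_le_add i1 i2) i3
      _ = (2 ^ (20 * k + 27) + 2 ^ (2 * k + 11) + 2 ^ (12 * k + 31)) * y := by ring
      _ ≤ 2 ^ (20 * (k + 1 + 1)) * y := Nat.mul_le_mul_right _ j1

/-- **Module AK_CS.** -/
theorem const_le (k : ℕ) : 4 * cn k 0 + 4 + 2 * rn k 0 ≤ (2 ^ 22) ^ (k + 1) := by
  have h1 := cn_le k 0
  have h2 := rn_le k 0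
  simp only [Nat.zero_add, mul_one, one_pow] at h1 h2
  have e1 : 8 ^ (2 * k + 3) = 2 ^ (6 * k + 9) := by
    rw [show (8 : ℕ) = 2 ^ 3 by norm_num, ← pow_mul]
    congr 1
    ring
  rw [e1] at h1
  have e2 : (2 ^ 22) ^ (k + 1) = 4 * (2 ^ (22 * k + 20)) := by
    rw [← pow_mul, show 22 * (k + 1) = (22 * k + 20) + 2 by ring, pow_add]
    ring
  have a1 := AK_CS_two (6 * k + 9) (22 * k + 18) (by omega)
  have a2 := AK_CS_two (20 * (k + 1)) (22 * k + 20) (by omega)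
  have a3 : 2 ^ (22 * k + 20) = 4 * 2 ^ (22 * k + 18) := by
    rw [show 22 * k + 20 = (22 * k + 18) + 2 by ring, pow_add]
    ring
  rw [e2]
  omega

end Pool.Agent.SplAk
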