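import Pool.Agent.SplLs.Comp
import Pool.Agent.SplLs.Own
import Pool.Agent.SplLs.Itm

set_option autoImplicit false

/-!
# Schemes: definitions

A time-dependent partition of the idle keys, with structures (`St`, see `SplLs.Defs`) on its parts.

* `Idl m X b a t v`: the block of scale `a` of the key `v` is active in its window (of the time `t`), the
  block of scale `b` of `v` is not.
* `cc R N`: the maximal intervals `[q.1, q.2)` of the set `R ⊆ [0, N)`.
* `Fam S b c P`: `P (time) (block)` is a structure with constant `c` on every block of scale `b`.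
* `Pre`: some partition of the idle region of `(b, a)` into intervals `z` with structures
  `μ * (sum of P over the blocks of z) + E`, where the total of the increases of the sum of the `E` by
  changes of the partition is at most `r D / 2^b`, and the number of the parts is under control.
* `Scm`: the same for the partition into the maximal idle intervals.
-/

namespace Pool.Agent.SplAk

open Pool.Agent.SplLog Pool.Agent.SplPat Pool.Agent.SplLs

/-- The key `v` is idle between the scales `b` and `a` at the time `t`. -/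
def Idl (m : ℕ) (X : ℕ → ℕ) (b a t v : ℕ) : Prop :=
  v / 2 ^ a ∈ act m X a t ∧ v / 2 ^ b ∉ act m X b t

open scoped Classical in
/-- The maximal intervals `[q.1, q.2)` contained in the set `R ⊆ [0, N)`. -/
noncomputable def cc (R : ℕ → Prop) (N : ℕ) : Finset (ℕ × ℕ) :=
  (Finset.range (N + 1) ×ˢ Finset.range (N + 1)).filter (fun q => q.1 < q.2 ∧
    (∀ v, q.1 ≤ v → v < q.2 → R v) ∧ ¬ R q.2 ∧ (q.1 = 0 ∨ ¬ R (q.1 - 1)))

/-- `Z` is a partition of `R` into nonempty intervals `[z.1, z.2)`. -/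
structure Part (R : ℕ → Prop) (Z : Finset (ℕ × ℕ)) : Prop where
  lt : ∀ z ∈ Z, z.1 < z.2
  mem : ∀ v, R v ↔ ∃ z ∈ Z, z.1 ≤ v ∧ v < z.2
  disj : ∀ z ∈ Z, ∀ z' ∈ Z, z ≠ z' → z.2 ≤ z'.1 ∨ z'.2 ≤ z.1

/-- The parts which lie in the interval `[q.1, q.2)`. -/
def sub (Z : Finset (ℕ × ℕ)) (q : ℕ × ℕ) : Finset (ℕ × ℕ) :=
  Z.filter (fun z => q.1 ≤ z.1 ∧ z.2 ≤ q.2)

/-- `P` (time, block) is a structure with constant `c` on the blocks of scale `b`. -/
def Fam (S : Sys) (b c : ℕ) (P : ℕ → ℕ → ℕ) : Prop :=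
  ∀ t, t < S.m → ∀ i, 1 ≤ i * 2 ^ b → (i + 1) * 2 ^ b ≤ S.top →
    St S t (i * 2 ^ b) ((i + 1) * 2 ^ b) c (P t i) (P (t + 1) i)

/-- The sum of `P` over the blocks of scale `b` in `[z.1, z.2)`, in the tree of the time `s`. -/
def bs (P : ℕ → ℕ → ℕ) (b s : ℕ) (z : ℕ × ℕ) : ℕ :=
  ∑ i ∈ Finset.Ico (z.1 / 2 ^ b) (z.2 / 2 ^ b), P s i

/-- The potential of the composition of the blocks of scale `b` in the block `N` of scale `e`. -/
noncomputable def cq (S : Sys) (b e c s N : ℕ) : ℕ :=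
  cp S s (N * 2 ^ e) ((N + 1) * 2 ^ e) (Finset.Ico (N * 2 ^ (e - b)) ((N + 1) * 2 ^ (e - b)))
    (fun i => i * 2 ^ b) (fun i => (i + 1) * 2 ^ b) c

/-- The structure on the blocks `N` of scale `e` made of the structures `P` on the blocks of scale `b`. -/
noncomputable def up (S : Sys) (b e c : ℕ) (P : ℕ → ℕ → ℕ) (s N : ℕ) : ℕ :=
  2 * ∑ i ∈ Finset.Ico (N * 2 ^ (e - b)) ((N + 1) * 2 ^ (e - b)), P s i + cq S b e c s N

/-- The size of a composition with constant `c`, per piece. -/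
def Kc (c : ℕ) : ℕ := (4 * c + 1) * (2 * (8 * c + 5)) + 2

/-- The standing assumptions. -/
structure Hyp (S : Sys) (A D : ℕ) : Prop where
  thr : Thr S
  thr' : Thr S.mir
  rng : Rng S A
  cells : ∀ j, j ≤ A → 2 ^ j * (cells (2 ^ j) S.m S.X).card ≤ D

/-- A partition of the idle region of `(b, a)` with structures on its parts. -/
structure Pre (S : Sys) (D b a c μ r ν : ℕ) (P : ℕ → ℕ → ℕ) where
  /-- the parts at the time `t` -/
  Z : ℕ → Finset (ℕ × ℕ)
  /-- the extra potential of the part `z` of the time `t` in the tree of the time `s` -/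
  E : ℕ → ℕ → ℕ × ℕ → ℕ
  /-- the cost of the re-initialisation at the time `t` -/
  re : ℕ → ℕ
  part : ∀ t, Part (Idl S.m S.X b a t) (Z t)
  al : ∀ t, ∀ z ∈ Z t, 2 ^ b ∣ z.1 ∧ 2 ^ b ∣ z.2
  st : ∀ t, t < S.m → ∀ z ∈ Z t, St S t z.1 z.2 c (μ * bs P b t z + E t t z)
    (μ * bs P b (t + 1) z + E t (t + 1) z)
  step : ∀ t, t + 1 < S.m → ∑ z ∈ Z (t + 1), E (t + 1) (t + 1) z ≤
    ∑ z ∈ Z t, E t (t + 1) z + re (t + 1)
  zero : ∑ z ∈ Z 0, E 0 0 z ≤ re 0
  sum : 2 ^ b * ∑ t ∈ Finset.range S.m, re t ≤ r * D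
  const : ∀ t, ¬ 2 ^ b ∣ t + 1 → Z (t + 1) = Z t
  cnt : 2 ^ b * ∑ t ∈ (Finset.range S.m).filter (fun t => 2 ^ b ∣ t), (Z t).card ≤ ν * D

/-- Structures on the maximal idle intervals of `(b, a)`. -/
structure Scm (S : Sys) (D b a c μ r : ℕ) (P : ℕ → ℕ → ℕ) where
  /-- the extra potential of the interval `z` of the time `t` in the tree of the time `s` -/
  E : ℕ → ℕ → ℕ × ℕ → ℕ
  /-- the cost of the re-initialisation at the time `t` -/
  re : ℕ → ℕ
  st : ∀ t, t < S.m → ∀ z ∈ cc (Idl S.m S.X b a t) S.top,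
    St S t z.1 z.2 c (μ * bs P b t z + E t t z) (μ * bs P b (t + 1) z + E t (t + 1) z)
  step : ∀ t, t + 1 < S.m → ∑ z ∈ cc (Idl S.m S.X b a (t + 1)) S.top, E (t + 1) (t + 1) z ≤
    ∑ z ∈ cc (Idl S.m S.X b a t) S.top, E t (t + 1) z + re (t + 1)
  zero : ∑ z ∈ cc (Idl S.m S.X b a 0) S.top, E 0 0 z ≤ re 0
  sum : 2 ^ b * ∑ t ∈ Finset.range S.m, re t ≤ r * D

/-- Every family of structures with constant `c0` on the blocks of scale `b` has a `Pre`. -/
def PSc (S : Sys) (D b a c0 c μ r ν : ℕ) : Prop :=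
  ∀ P, Fam S b c0 P → Nonempty (Pre S D b a c μ r ν P)

/-- Every family of structures with constant `c0` on the blocks of scale `b` has a `Scm`. -/
def Sch (S : Sys) (D b a c0 c μ r : ℕ) : Prop :=
  ∀ P, Fam S b c0 P → Nonempty (Scm S D b a c μ r P)

/-- The idle blocks of scale `s` in the active blocks of scale `a`. -/
def idb (m : ℕ) (X : ℕ → ℕ) (s a t : ℕ) : Finset ℕ := blk m X a s t \ act m X s t

/-- The cost of the re-initialisation of the potentials `cq` of the blocks in `idb` at the time `u`. -/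
def rq (m : ℕ) (X : ℕ → ℕ) (b s a c u : ℕ) : ℕ :=
  Kc c * 2 ^ (s - b) * ((if 2 ^ s ∣ u ∧ 0 < u then (act m X s (u - 1)).card else 0) +
    (if 2 ^ a ∣ u then 2 ^ (a - s) * (act m X a u).card else 0))

/-- The hierarchy of inverse Ackermann functions: `alp 0 n = ⌈n/2⌉`, and `alp (k+1) n` is the number of
times that `alp k` must be applied to `n` until the result is at most `1`. -/
noncomputable def alp : ℕ → ℕ → ℕ
  | 0, n => (n + 1) / 2
  | k + 1, n => sInf {j | (alp k)^[j] n ≤ 1}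

/-- The inverse Ackermann function. -/
noncomputable def ialp (n : ℕ) : ℕ := sInf {k | alp k n ≤ 3}

/-- The constants of the structures. -/
def cn : ℕ → ℕ → ℕ
  | 0, c0 => 8 * (8 * (8 * c0 + 3) + 3) + 3
  | k + 1, c0 => 8 * cn k (8 * c0 + 3) + 3

/-- The multiplicities. -/
def mn : ℕ → ℕ
  | 0 => 8
  | k + 1 => 4 * mn k

/-- The factors of the cost of the re-initialisations. -/
def rn : ℕ → ℕ → ℕ
  | 0, c0 => 2 * (2 * Kc (8 * c0 + 3) + 4 * Kc c0) + 2 * Kc (8 * (8 * c0 + 3) + 3)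
  | k + 1, c0 => 2 * (rn k (8 * c0 + 3) + 2 * mn k * Kc c0) + 2 * Kc (cn k (8 * c0 + 3))

end Pool.Agent.SplAk
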