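import Pool.Agent.SplAk.Hier
import Pool.Agent.SplAk.Cst
import Pool.Agent.SplLs.Fin

set_option autoImplicit false

/-!
# Splaying pattern-avoiding sequences: inverse Ackermann bounds
-/

namespace Pool.Agent.SplAk

open BinaryTree Pool.Agent.MP_c42954_lc.Scan Pool.Agent.SplLog Pool.Agent.SplPat Pool.Agent.SplLs

/-- **Module AK_F1.**  HINT.  As `SplLs.run_total` (module FI2 of SplLs): `S = sysOf …` satisfies `Hyp S A D` with `D = c * (m + 3 * 2^A)` (`thr_sys`, `thr_mir`, `cells_le`;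
top = 2^(A+1)); all keys have `v / 2^A = 1`, so the nodes of `depth_le` are in `lvl S A 0 t`; `total`, `const_le`. -/
theorem run_alp (ℓ : ℕ) : ∃ C : ℕ, ∀ (π : Equiv.Perm (Fin ℓ)) (T : BinaryTree ℕ) (X : ℕ → ℕ)
    (m A : ℕ), IsBST T → (∀ t, t < m → X t ∈ inorder T) →
    (∀ v ∈ inorder T, 2 ^ A ≤ v ∧ v < 2 ^ (A + 1)) → Avoids π m X → ∀ k : ℕ,
    ∑ t ∈ Finset.range m, depth (X t) (tr T X t) ≤
      C * (2 ^ 22) ^ (k + 1) * (m + 2 ^ A) * (1 + alp (k + 1) (2 ^ A)) := by
  classical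
  obtain ⟨c, hc⟩ := cells_le ℓ
  refine ⟨3 * c, ?_⟩
  intro π T X m A hb hX hA hav k
  have hB : Bd 0 (2 ^ (A + 1)) T := by
    intro v hv
    have h1 := hA v hv
    have h2 : 0 < 2 ^ A := by positivity
    exact ⟨by omega, h1.2⟩
  set S := sysOf T X m (2 ^ (A + 1)) hb hX hB with hS
  have hT : Thr S := thr_sys hb hX hB
  have hT' : Thr S.mir := thr_mir hb hX hB
  have hR : Rng S A := ⟨rfl, fun v hv => (hA v (List.mem_toFinset.1 hv)).1⟩
  have hD : ∀ j, j ≤ A → 2 ^ j * (cells (2 ^ j) S.m S.X).card ≤ c * (m + 3 * 2 ^ A) := by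
    intro j hj
    have h1 := hc π X m (2 ^ (A + 1)) (2 ^ j) (by positivity) hav
      (fun t ht => (hA _ (hX t ht)).2)
    refine h1.trans (Nat.mul_le_mul_left _ ?_)
    have h2 : 2 ^ j ≤ 2 ^ A := Nat.pow_le_pow_right (by norm_num) hj
    have h3 : 2 ^ (A + 1) = 2 * 2 ^ A := by ring
    omega
  have hH : Hyp S A (c * (m + 3 * 2 ^ A)) := ⟨hT, hT', hR, hD⟩
  have h1 := total hH k
  have hkey : ∀ v ∈ S.K, v / 2 ^ A = 1 := by
    intro v hv
    have h2 := hA v (List.mem_toFinset.1 hv)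
    have h3 : 2 ^ (A + 1) = 2 ^ A * 2 := by ring
    have h4 : 0 < 2 ^ A := by positivity
    apply Nat.div_eq_of_lt_le
    · omega
    · omega
  have h2 : ∑ t ∈ Finset.range m, depth (X t) (tr T X t) ≤
      ∑ t ∈ Finset.range S.m, (lvl S A 0 t).card := by
    apply Finset.sum_le_sum
    intro t ht
    rw [Finset.mem_range] at ht
    refine (depth_le hb hX hB ht).trans (Finset.card_le_card ?_)
    intro v hv
    rw [Finset.mem_filter] at hv
    obtain ⟨hv1, hv2, hv3⟩ := hv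
    unfold lvl
    rw [Finset.mem_filter]
    refine ⟨hv1, hv3, ?_, ?_⟩
    · rw [hkey v hv1, hkey (S.X t) (S.req t ht)]
    · rw [pow_zero, Nat.div_one, Nat.div_one]
      exact hv2
  refine (h2.trans h1).trans ?_
  have h3 := const_le k
  calc (4 * cn k 0 + 4 + 2 * rn k 0) * (1 + alp (k + 1) (2 ^ A)) * (c * (m + 3 * 2 ^ A))
      ≤ (2 ^ 22) ^ (k + 1) * (1 + alp (k + 1) (2 ^ A)) * (c * (3 * (m + 2 ^ A))) :=
        Nat.mul_le_mul (Nat.mul_le_mul_right _ h3) (Nat.mul_le_mul_left _ (by omega))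
    _ = 3 * c * (2 ^ 22) ^ (k + 1) * (m + 2 ^ A) * (1 + alp (k + 1) (2 ^ A)) := by ring

/-- **Module AK_F2.**  HINT.  As `SplLs.splay_logStar` (module FI3) / `SplPat.splay_total`: relabel the keys by `2^A + rank`, `A = Nat.clog 2 n`
(`rank < n ≤ 2^A`, `Nat.le_pow_clog`; `2^A ≤ 2 n` for `n ≥ 1`), `alp_pow` (`alp (k+1) (2^A) = alp (k+1) n`).  The empty tree: `X = []`. -/
theorem splay_alp (ℓ : ℕ) : ∃ C : ℕ, ∀ (π : Equiv.Perm (Fin ℓ)) (T : BinaryTree ℕ) (X : List ℕ),
    IsBST T → (∀ x ∈ X, x ∈ inorder T) → AvoidsL π X → ∀ k : ℕ,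
    splayCost X T ≤ C * (2 ^ 22) ^ (k + 1) * (X.length + (inorder T).length) *
      (1 + alp (k + 1) (inorder T).length) := by
  obtain ⟨C, hC⟩ := run_alp ℓ
  refine ⟨2 * C + 1, fun π T X hb hX hav k => ?_⟩
  rcases Nat.eq_zero_or_pos X.length with h0 | h0
  · have : X = [] := List.length_eq_zero_iff.mp h0
    subst this
    simp [splayCost]
  set K := inorder T with hK
  have hn : 1 ≤ K.length := by
    obtain ⟨x, hx⟩ := List.exists_mem_of_length_pos h0
    exact List.length_pos_of_mem (hX x hx)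
  set n := K.length with hnd
  set A := Nat.clog 2 n with hA
  set f : ℕ → ℕ := fun v => 2 ^ A + REL_rank K v with hf
  have hnA : n ≤ 2 ^ A := Nat.le_pow_clog (by norm_num) n
  have hAn : 2 ^ A ≤ 2 * n := by
    rcases Nat.lt_or_ge 1 n with h1 | h1
    · have h2 : 2 ^ (A - 1) < n := Nat.pow_pred_clog_lt_self (by norm_num) h1
      have h3 : 0 < A := Nat.clog_pos (by norm_num) h1
      have h4 : 2 ^ A = 2 * 2 ^ (A - 1) := by
        rw [← pow_succ']
        congr 1
        omega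
      omega
    · have h2 : n = 1 := by omega
      rw [hA, h2]
      norm_num
  set X' := X.map f with hX'
  set T' := mapT f T with hT'
  have hlen : X'.length = X.length := List.length_map _
  have hfl : ∀ a ∈ K, ∀ b, a < b → f a < f b := by
    intro a ha b hab
    have := REL_rank_lt K ha hab
    simp only [hf]
    omega
  have hb' : IsBST T' := by
    have h1 : (K.map f).Pairwise (· < ·) := by
      rw [List.pairwise_map]
      have hpw : K.Pairwise (· < ·) := hb
      refine List.Pairwise.imp_of_mem (fun {a b} ha hb' hab => ?_) hpw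
      exact hfl a ha b hab
    unfold IsBST
    rw [hT', mapT_inorder]
    exact h1
  have hmem' : ∀ x ∈ X', x ∈ inorder T' := by
    intro x hx
    rw [hX', List.mem_map] at hx
    obtain ⟨y, hy, rfl⟩ := hx
    rw [hT', mapT_inorder]
    exact List.mem_map_of_mem (hX y hy)
  have hcost : splayCost X' T' = splayCost X T :=
    REL_cost (fun x hx a ha => ⟨fun h => hfl _ hx _ h, fun h => hfl _ ha _ h⟩) X T hb rfl hX
  have hrng : ∀ v ∈ inorder T', 2 ^ A ≤ v ∧ v < 2 ^ (A + 1) := by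
    intro v hv
    rw [hT', mapT_inorder, List.mem_map] at hv
    obtain ⟨y, hy, rfl⟩ := hv
    have h1 := REL_rank_len K hy
    have h2 : 2 ^ (A + 1) = 2 * 2 ^ A := by ring
    simp only [hf]
    omega
  have hav' : Avoids π X'.length (fun i => X'.getD i 0) := by
    rw [hlen]
    rintro ⟨g, hg, hm, hp⟩
    apply hav
    refine ⟨fun i => ⟨g i, hm i⟩, fun i j hij => hg hij, fun i j hij => ?_⟩
    have h1 := hp i j hij
    have h2 : ∀ i, X'.getD (g i) 0 = f (X.get ⟨g i, hm i⟩) := by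
      intro i
      rw [List.getD_eq_getElem _ 0 (by rw [List.length_map]; exact hm i), List.getElem_map]
      rfl
    simp only [h2] at h1
    by_contra h3
    have h3' : X.get ⟨g j, hm j⟩ ≤ X.get ⟨g i, hm i⟩ := not_lt.mp h3
    have h4 := REL_rank_mono K h3'
    simp only [hf] at h1
    omega
  have h5 := hC π T' (fun i => X'.getD i 0) X'.length A hb' (getD_mem hmem') hrng hav' k
  have h6 := cost_eq X' T'
  rw [hcost] at h6
  rw [h6, hlen]
  rw [hlen] at h5
  have h7 : alp (k + 1) (2 ^ A) = alp (k + 1) n := by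
    rw [hA]
    exact alp_pow k n
  rw [h7] at h5
  have h9 : X.length ≤ (2 ^ 22) ^ (k + 1) * (X.length + n) * (1 + alp (k + 1) n) := by
    calc X.length = 1 * X.length * 1 := by ring
      _ ≤ (2 ^ 22) ^ (k + 1) * (X.length + n) * (1 + alp (k + 1) n) :=
        Nat.mul_le_mul (Nat.mul_le_mul (Nat.one_le_pow _ _ (by norm_num)) (by omega)) (by omega)
  have h8 : C * (2 ^ 22) ^ (k + 1) * (X.length + 2 ^ A) * (1 + alp (k + 1) n) ≤
      C * (2 ^ 22) ^ (k + 1) * (2 * (X.length + n)) * (1 + alp (k + 1) n) :=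
    Nat.mul_le_mul_right _ (Nat.mul_le_mul_left _ (by omega))
  calc X.length + ∑ t ∈ Finset.range X.length,
        depth (X'.getD t 0) (tr T' (fun s => X'.getD s 0) t)
      ≤ (2 ^ 22) ^ (k + 1) * (X.length + n) * (1 + alp (k + 1) n) +
        C * (2 ^ 22) ^ (k + 1) * (2 * (X.length + n)) * (1 + alp (k + 1) n) :=
        Nat.add_le_add h9 (h5.trans h8)
    _ = (2 * C + 1) * (2 ^ 22) ^ (k + 1) * (X.length + n) * (1 + alp (k + 1) n) := by ring

/-- **Module AK_F3.**  HINT.  `splay_alp`, `ialp_spec`; the constant `C + 2^24` or similar works for both (`C * (2^22)^(k+1) ≤ C'^(k+1)`). -/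
theorem splay_ack (ℓ : ℕ) : ∃ C : ℕ, ∀ (π : Equiv.Perm (Fin ℓ)) (T : BinaryTree ℕ) (X : List ℕ),
    IsBST T → (∀ x ∈ X, x ∈ inorder T) → AvoidsL π X →
    (∀ k : ℕ, splayCost X T ≤ C ^ (k + 1) * (X.length + (inorder T).length) *
      (1 + alp (k + 1) (inorder T).length)) ∧
    splayCost X T ≤ C ^ (ialp (inorder T).length + 1) * (X.length + (inorder T).length) := by
  obtain ⟨C, hC⟩ := splay_alp ℓ
  have hB : 4 * (C + 1) * 2 ^ 22 = (C + 1) * 2 ^ 24 := by ring
  refine ⟨(C + 1) * 2 ^ 24, fun π T X hb hX hA => ?_⟩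
  have h1 := hC π T X hb hX hA
  have h2 : ∀ k, 4 * (C * (2 ^ 22) ^ (k + 1)) ≤ ((C + 1) * 2 ^ 24) ^ (k + 1) := by
    intro k
    have e : ((C + 1) * 2 ^ 24) ^ (k + 1) = (4 * (C + 1)) ^ (k + 1) * (2 ^ 22) ^ (k + 1) := by
      rw [← mul_pow, hB]
    rw [e, ← mul_assoc]
    apply Nat.mul_le_mul_right
    calc 4 * C ≤ (4 * (C + 1)) ^ 1 := by rw [pow_one]; omega
      _ ≤ (4 * (C + 1)) ^ (k + 1) := Nat.pow_le_pow_right (by omega) (by omega)
  constructor
  · intro k
    refine (h1 k).trans ?_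
    apply Nat.mul_le_mul_right
    apply Nat.mul_le_mul_right
    have := h2 k
    omega
  · obtain ⟨k, hk, h3⟩ := ialp_spec (inorder T).length
    calc splayCost X T ≤ C * (2 ^ 22) ^ (k + 1) * (X.length + (inorder T).length) *
          (1 + alp (k + 1) (inorder T).length) := h1 k
      _ ≤ C * (2 ^ 22) ^ (k + 1) * (X.length + (inorder T).length) * 4 :=
          Nat.mul_le_mul_left _ (by omega)
      _ = 4 * (C * (2 ^ 22) ^ (k + 1)) * (X.length + (inorder T).length) := by ring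
      _ ≤ ((C + 1) * 2 ^ 24) ^ (k + 1) * (X.length + (inorder T).length) :=
          Nat.mul_le_mul_right _ (h2 k)
      _ ≤ ((C + 1) * 2 ^ 24) ^ (ialp (inorder T).length + 1) *
          (X.length + (inorder T).length) :=
          Nat.mul_le_mul_right _ (Nat.pow_le_pow_right (by positivity) (by omega))

end Pool.Agent.SplAk
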