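import Pool.Agent.SplAk.Stp
import Pool.Agent.SplAk.Alp

set_option autoImplicit false

/-!
# The hierarchy of schemes
-/

namespace Pool.Agent.SplAk

open Pool.Agent.SplLog Pool.Agent.SplPat Pool.Agent.SplLs

variable {S : Sys} {A D a b c0 : ℕ}

/-- **Module AK_H0.**  HINT.  `pre_sch` of `pre_one`. -/
theorem sch_one (hH : Hyp S A D) (hb : b + 1 ≤ A) :
    Sch S D b (b + 1) c0 (8 * c0 + 3) 2 (2 * Kc c0) := by
  have h := pre_sch hH hb (Nat.le_succ b) (pre_one (c0 := c0) hH hb)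
  have e : 2 * 0 + Kc c0 * 2 = 2 * Kc c0 := by ring
  rw [e] at h
  exact h

/-- **Module AK_H0.**  HINT.  Induction on `d`: `pre_refl`; `pre_step` with `s = b + d`, `a = b + d + 1`, `μ = 2`, `sch_one` (for `s` and the constant
`8 * c0 + 3`), `r2 = ρ = 2 * Kc (8 * c0 + 3)`. -/
theorem psc_unit (hH : Hyp S A D) (d : ℕ) (hd : b + d ≤ A) :
    PSc S D b (b + d) c0 (8 * (8 * c0 + 3) + 3) 4 (d * (2 * Kc (8 * c0 + 3) + 4 * Kc c0))
      (2 * d) := by
  induction d with
  | zero =>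
    have h := pre_refl (S := S) (D := D) (b := b) (c0 := c0) (c := 8 * (8 * c0 + 3) + 3) (μ := 4)
    simpa using h
  | succ d ih =>
    have h1 := ih (by omega)
    have h2 := sch_one (c0 := 8 * c0 + 3) hH (b := b + d) (by omega)
    have h3 := pre_step (a := b + (d + 1)) (s := b + d) (ρ := 2 * Kc (8 * c0 + 3))
      (r2 := 2 * Kc (8 * c0 + 3)) (μ := 2) hH (by omega) (by omega) hd h1 h2
      (Nat.le_mul_of_pos_right _ (by positivity))
    have e1 : d * (2 * Kc (8 * c0 + 3) + 4 * Kc c0) + 2 * Kc (8 * c0 + 3) + 2 * 2 * Kc c0 =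
        (d + 1) * (2 * Kc (8 * c0 + 3) + 4 * Kc c0) := by ring
    have e2 : 2 * d + 2 = 2 * (d + 1) := by ring
    rw [e1, e2] at h3
    exact h3

/-- **Module AK_H0.**  HINT.  `pre_sch` of `psc_unit` (`d = a - b`), `alp_one`, `Nat.clog_pow`. -/
theorem sch_zero (hH : Hyp S A D) (hba : b ≤ a) (haA : a ≤ A) :
    Sch S D b a c0 (cn 0 c0) (mn 0) (rn 0 c0 * alp 1 (2 ^ (a - b))) := by
  obtain ⟨d, rfl⟩ := Nat.exists_eq_add_of_le hba
  have h := pre_sch hH haA hba (psc_unit (c0 := c0) hH d haA)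
  have e1 : alp 1 (2 ^ (b + d - b)) = d := by
    rw [alp_one, Nat.add_sub_cancel_left, Nat.clog_pow 2 d (by norm_num)]
  rw [e1]
  have e2 : 2 * (d * (2 * Kc (8 * c0 + 3) + 4 * Kc c0)) + Kc (8 * (8 * c0 + 3) + 3) * (2 * d) =
      rn 0 c0 * d := by
    simp only [rn]
    ring
  rw [e2] at h
  exact h

/-- **Module AK_H1.**  HINT.  Strong induction on `d` for all `b` (`c0` fixed).  `d = 0`: `pre_refl`, `alp (k+2) 1 = 0`.  `d ≥ 1`: `h = clog 2 (alp (k+1) (2^d)) < d`
(`hh_lt`), `s = b + h`: `pre_step` with the induction hypothesis for `h`, and `hk` for `(s, b + d)`, constant `8 * c0 + 3`,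
`ρ = rn k (8 * c0 + 3)`; `r2 = ρ * alp (k+1) (2^(d-h)) ≤ ρ * 2^h` (`alp_fit`); then `alp_hh`. -/
theorem psc_succ (hH : Hyp S A D) (k : ℕ)
    (hk : ∀ b a c0, b ≤ a → a ≤ A →
      Sch S D b a c0 (cn k c0) (mn k) (rn k c0 * alp (k + 1) (2 ^ (a - b)))) (d : ℕ) :
    ∀ b, b + d ≤ A → PSc S D b (b + d) c0 (cn k (8 * c0 + 3)) (2 * mn k)
      ((rn k (8 * c0 + 3) + 2 * mn k * Kc c0) * alp (k + 2) (2 ^ d))
      (2 * alp (k + 2) (2 ^ d)) := by
  induction d using Nat.strong_induction_on with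
  | _ d ih =>
    intro b hb
    rcases Nat.eq_zero_or_pos d with h0 | h0
    · subst h0
      have e : alp (k + 2) (2 ^ 0) = 0 := alp_small (k + 1) (by norm_num)
      have h := pre_refl (S := S) (D := D) (b := b) (c0 := c0) (c := cn k (8 * c0 + 3))
        (μ := 2 * mn k)
      rw [e, mul_zero, mul_zero]
      exact h
    · have hlt := hh_lt k h0
      obtain ⟨h, hh⟩ : ∃ h, h = Nat.clog 2 (alp (k + 1) (2 ^ d)) := ⟨_, rfl⟩
      rw [← hh] at hlt
      have h1 := ih h hlt b (by omega)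
      have h2 := hk (b + h) (b + d) (8 * c0 + 3) (by omega) hb
      have h3 : alp (k + 1) (2 ^ (b + d - (b + h))) ≤ 2 ^ (b + h - b) := by
        have e : b + d - (b + h) = d - h := by omega
        rw [e, Nat.add_sub_cancel_left]
        exact alp_fit k d h hh
      have h4 := pre_step (a := b + d) (s := b + h) (ρ := rn k (8 * c0 + 3)) (μ := mn k) hH
        (by omega) (by omega) hb h1 h2 (Nat.mul_le_mul_left _ h3)
      rw [alp_hh k h0, ← hh]
      have e1 : (rn k (8 * c0 + 3) + 2 * mn k * Kc c0) * alp (k + 2) (2 ^ h) + rn k (8 * c0 + 3) +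
          2 * mn k * Kc c0 = (rn k (8 * c0 + 3) + 2 * mn k * Kc c0) * (1 + alp (k + 2) (2 ^ h)) := by
        ring
      have e2 : 2 * alp (k + 2) (2 ^ h) + 2 = 2 * (1 + alp (k + 2) (2 ^ h)) := by ring
      rw [e1, e2] at h4
      exact h4

/-- **Module AK_H1.**  HINT.  Induction on `k`: `sch_zero`; `pre_sch` of `psc_succ` (`d = a - b`). -/
theorem sch_all (hH : Hyp S A D) (k : ℕ) :
    ∀ b a c0, b ≤ a → a ≤ A →
      Sch S D b a c0 (cn k c0) (mn k) (rn k c0 * alp (k + 1) (2 ^ (a - b))) := by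
  induction k with
  | zero => exact fun b a c0 h1 h2 => sch_zero hH h1 h2
  | succ k ih =>
    intro b a c0 hba haA
    obtain ⟨d, rfl⟩ := Nat.exists_eq_add_of_le hba
    have h := pre_sch hH haA hba (psc_succ (c0 := c0) hH k ih d b haA)
    rw [Nat.add_sub_cancel_left]
    have e : 2 * ((rn k (8 * c0 + 3) + 2 * mn k * Kc c0) * alp (k + 2) (2 ^ d)) +
        Kc (cn k (8 * c0 + 3)) * (2 * alp (k + 2) (2 ^ d)) =
        rn (k + 1) c0 * alp (k + 1 + 1) (2 ^ d) := by
      simp only [rn]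
      ring
    rw [e] at h
    have e2 : 2 * (2 * mn k) = mn (k + 1) := by
      simp only [mn]
      ring
    rw [e2] at h
    exact h

private theorem AK_TO_gR (S : Sys) {t l r : ℕ} (h : r ≤ l + 1) : gR S t l r = ∅ := by
  rw [Finset.eq_empty_iff_forall_notMem]
  intro v hv
  rw [mem_gR] at hv
  have := R_rho hv.2.1
  omega

private theorem AK_TO_fam : Fam S 0 0 (fun _ _ => 0) := by
  intro t ht i h1 h2
  constructor
  · intro _
    rw [AK_TO_gR S (by simp)]
    simp
  · intro _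
    rw [AK_TO_gR S.mir (by unfold ml; simp; omega)]
    simp

private theorem AK_TO_tel (m C : ℕ) (lv n U V re : ℕ → ℕ)
    (h1 : ∀ t, t < m → lv t + 2 * V t ≤ 2 * U t + C * n t)
    (h2 : ∀ t, t + 1 < m → U (t + 1) ≤ V t + re (t + 1)) (h0 : U 0 ≤ re 0) :
    ∑ t ∈ Finset.range m, lv t ≤
      2 * ∑ t ∈ Finset.range m, re t + C * ∑ t ∈ Finset.range m, n t := by
  have key : ∀ j, j < m → ∑ t ∈ Finset.range (j + 1), lv t + 2 * V j ≤
      2 * ∑ t ∈ Finset.range (j + 1), re t + C * ∑ t ∈ Finset.range (j + 1), n t := by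
    intro j
    induction j with
    | zero =>
      intro hj
      have := h1 0 hj
      simp only [Finset.sum_range_succ, Finset.sum_range_zero, zero_add]
      omega
    | succ j ih =>
      intro hj
      have e1 := ih (by omega)
      have e2 := h1 (j + 1) hj
      have e3 := h2 j hj
      rw [Finset.sum_range_succ (n := j + 1), Finset.sum_range_succ (n := j + 1),
        Finset.sum_range_succ (n := j + 1), mul_add, mul_add]
      omega
  rcases Nat.eq_zero_or_pos m with h | h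
  · subst h
    simp
  · obtain ⟨j, rfl⟩ : ∃ j, m = j + 1 := ⟨m - 1, by omega⟩
    have := key j (Nat.lt_succ_self j)
    omega

private theorem AK_TO_act {m : ℕ} {X : ℕ → ℕ} {t v : ℕ} (h : v ∈ act m X 0 t) : v = X t := by
  obtain ⟨s, h1, h2, h3⟩ := mem_act.mp h
  simp only [pow_zero, Nat.div_one] at h2 h3
  rw [← h3, h2]

/-- **Module AK_TO.**  HINT.  The family `0` on single keys is a structure with constant `0` (`gR` of a single key is empty: `v < rho v`, both sides), so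
`sch_all` for `b = 0`, `a = A`, `c0 = 0` gives a `Scm` `W` (`bs 0 = 0`).  For `t < m`: a node `v` of `lvl S A 0 t` is idle at `(0, A)`: `v / 2^A = X t / 2^A ∈ act A t`
(`act_own`) and `v ∉ act 0 t = {X t}` (`mem_act`, `s / 1 = t / 1`); so it lies in a `z ∈ cc` (`part_cc`, `idl_rng`) and in `tE S t z.1 z.2`; `X t` is not idle, so
`X t < z.1 ∨ z.2 ≤ X t`; `touch` with `w = 2`: `(tE ..).card + 2 * W.E t (t+1) z ≤ 2 * W.E t t z + 2 * c + 2`.  Sum over `z` and telescope over `t`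
with `W.step`, `W.zero`: `∑_t lvl ≤ 2 ∑ W.re + (2 c + 2) ∑_t (#act A t + #act 0 t)`; `cc_card`; `act_sum` with `k = 0`. -/
theorem total (hH : Hyp S A D) (k : ℕ) :
    ∑ t ∈ Finset.range S.m, (lvl S A 0 t).card ≤
      (4 * cn k 0 + 4 + 2 * rn k 0) * (1 + alp (k + 1) (2 ^ A)) * D := by
  classical
  obtain ⟨W⟩ := sch_all hH k 0 A 0 (Nat.zero_le A) le_rfl _ AK_TO_fam
  have hrng : ∀ t v, Idl S.m S.X 0 A t v → v < S.top := fun t v h => (idl_rng hH.rng le_rfl h).2
  have hbs : ∀ u z, bs (fun _ _ => 0) 0 u z = 0 := fun u z => by simp [bs]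
  have h1 : ∀ t, t < S.m → (lvl S A 0 t).card +
      2 * ∑ z ∈ cc (Idl S.m S.X 0 A t) S.top, W.E t (t + 1) z ≤
      2 * ∑ z ∈ cc (Idl S.m S.X 0 A t) S.top, W.E t t z +
      (2 * cn k 0 + 2) * (cc (Idl S.m S.X 0 A t) S.top).card := by
    intro t ht
    have hsub : lvl S A 0 t ⊆ (cc (Idl S.m S.X 0 A t) S.top).biUnion
        (fun z => tE S t z.1 z.2) := by
      intro v hv
      unfold lvl at hv
      rw [Finset.mem_filter] at hv
      obtain ⟨hvK, hvE, hvA, hv0⟩ := hv
      have h2 : Idl S.m S.X 0 A t v := by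
        refine ⟨?_, ?_⟩
        · rw [hvA]
          exact act_own ht
        · intro h3
          rw [pow_zero, Nat.div_one] at h3
          apply hv0
          rw [AK_TO_act h3]
      obtain ⟨z, hz, h3, h4⟩ := ((part_cc (hrng t)).mem v).mp h2
      rw [Finset.mem_biUnion]
      refine ⟨z, hz, ?_⟩
      unfold tE
      rw [Finset.mem_filter]
      exact ⟨hvK, h3, h4, hvE⟩
    have h2 : (lvl S A 0 t).card ≤
        ∑ z ∈ cc (Idl S.m S.X 0 A t) S.top, (tE S t z.1 z.2).card :=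
      (Finset.card_le_card hsub).trans Finset.card_biUnion_le
    have h3 : ∀ z ∈ cc (Idl S.m S.X 0 A t) S.top, (tE S t z.1 z.2).card + 2 * W.E t (t + 1) z ≤
        2 * W.E t t z + (2 * cn k 0 + 2) := by
      intro z hz
      have hp := part_cc (hrng t)
      have hlt := hp.lt z hz
      have i1 : Idl S.m S.X 0 A t z.1 := (hp.mem z.1).mpr ⟨z, hz, le_rfl, hlt⟩
      have i2 : Idl S.m S.X 0 A t (z.2 - 1) := (hp.mem _).mpr ⟨z, hz, by omega, by omega⟩
      have r1 := idl_rng hH.rng le_rfl i1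
      have r2 := idl_rng hH.rng le_rfl i2
      have h5 : 0 < 2 ^ A := by positivity
      have hx : S.X t < z.1 ∨ z.2 ≤ S.X t := by
        by_contra h6
        have i3 : Idl S.m S.X 0 A t (S.X t) := (hp.mem _).mpr ⟨z, hz, by omega, by omega⟩
        exact i3.2 (act_own ht)
      have hst := W.st t ht z hz
      have := touch hH.thr hH.thr' ht (by omega) (by omega) (w := 2) le_rfl hst hx
      simp only [hbs, mul_zero, zero_add] at this
      omega
    have h4 := Finset.sum_le_sum h3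
    rw [Finset.sum_add_distrib, Finset.sum_add_distrib, ← Finset.mul_sum, ← Finset.mul_sum,
      Finset.sum_const, smul_eq_mul] at h4
    have e : (cc (Idl S.m S.X 0 A t) S.top).card * (2 * cn k 0 + 2) =
        (2 * cn k 0 + 2) * (cc (Idl S.m S.X 0 A t) S.top).card := by ring
    omega
  have h2 := AK_TO_tel S.m (2 * cn k 0 + 2) _ _ _ _ W.re h1 W.step W.zero
  have h3 : ∑ t ∈ Finset.range S.m, (cc (Idl S.m S.X 0 A t) S.top).card ≤ 2 * D := by
    have h4 : ∀ t ∈ Finset.range S.m, (cc (Idl S.m S.X 0 A t) S.top).card ≤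
        (act S.m S.X A t).card + (act S.m S.X 0 t).card :=
      fun t _ => cc_card (Nat.zero_le A) (hrng t)
    have h5 := Finset.sum_le_sum h4
    rw [Finset.sum_add_distrib] at h5
    have h6 := act_sum (m := S.m) (X := S.X) (j := A) (k := 0) (Nat.zero_le A)
    have h7 := act_sum (m := S.m) (X := S.X) (j := 0) (k := 0) le_rfl
    have e : (Finset.range S.m).filter (fun t => 2 ^ 0 ∣ t) = Finset.range S.m := by
      apply Finset.filter_true_of_mem
      intro t _
      simp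
    rw [e, Nat.sub_zero] at h6 h7
    have h8 := hH.cells A le_rfl
    have h9 := hH.cells 0 (Nat.zero_le A)
    omega
  have h4 : ∑ t ∈ Finset.range S.m, W.re t ≤ rn k 0 * alp (k + 1) (2 ^ A) * D := by
    have h5 := W.sum
    rw [pow_zero, one_mul] at h5
    have e : alp (k + 1) (2 ^ (A - 0)) = alp (k + 1) (2 ^ A) := by rw [Nat.sub_zero]
    have h6 : rn k 0 * alp (k + 1) (2 ^ (A - 0)) * D ≤ rn k 0 * alp (k + 1) (2 ^ A) * D := by
      rw [e]
    exact h5.trans h6
  calc ∑ t ∈ Finset.range S.m, (lvl S A 0 t).card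
      ≤ 2 * ∑ t ∈ Finset.range S.m, W.re t + (2 * cn k 0 + 2) *
        ∑ t ∈ Finset.range S.m, (cc (Idl S.m S.X 0 A t) S.top).card := h2
    _ ≤ 2 * (rn k 0 * alp (k + 1) (2 ^ A) * D) + (2 * cn k 0 + 2) * (2 * D) :=
        add_le_add (Nat.mul_le_mul_left _ h4) (Nat.mul_le_mul_left _ h3)
    _ ≤ (4 * cn k 0 + 4 + 2 * rn k 0) * (1 + alp (k + 1) (2 ^ A)) * D := by
        have e1 : (4 * cn k 0 + 4 + 2 * rn k 0) * (1 + alp (k + 1) (2 ^ A)) * D =
          2 * (rn k 0 * alp (k + 1) (2 ^ A) * D) + (2 * cn k 0 + 2) * (2 * D) +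
          (2 * rn k 0 * D + (4 * cn k 0 + 4) * alp (k + 1) (2 ^ A) * D) := by ring
        rw [e1]
        exact Nat.le_add_right _ _

end Pool.Agent.SplAk
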