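import Pool.Agent.SplAk.Defs

set_option autoImplicit false

/-!
# Maximal intervals of a set of natural numbers, refinements
-/

namespace Pool.Agent.SplAk

open Pool.Agent.SplLog Pool.Agent.SplPat Pool.Agent.SplLs

variable {R : ℕ → Prop} {N : ℕ} {Z : Finset (ℕ × ℕ)} {q : ℕ × ℕ}
variable {m : ℕ} {X : ℕ → ℕ} {a b s t : ℕ}

/-- **Module AK_CC1.**  HINT.  `lt` from the definition.  `mem`: let `R v`.  Right end: the least `r > v` with `¬ R r` (`Nat.find`; it exists because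
`¬ R N`, and `r ≤ N`); left end: the least `l ≤ v` such that `R` holds on `[l, v]` (`Nat.find`); then `l = 0` or `¬ R (l - 1)`.  `disj`: if two
members `q, q'` of `cc` share a key `v` then `q.1 = q'.1` (if `q.1 < q'.1` then `q'.1 - 1 ∈ [q.1, q.2)`, so `R (q'.1 - 1)`, contradiction) and
`q.2 = q'.2` (if `q.2 < q'.2` then `R q.2`, contradiction). -/
theorem part_cc (hR : ∀ v, R v → v < N) : Part R (cc R N) := by
  classical
  have hmem : ∀ q, q ∈ cc R N ↔ (q.1 < N + 1 ∧ q.2 < N + 1) ∧ q.1 < q.2 ∧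
      (∀ v, q.1 ≤ v → v < q.2 → R v) ∧ ¬ R q.2 ∧ (q.1 = 0 ∨ ¬ R (q.1 - 1)) := by
    intro q
    unfold cc
    rw [Finset.mem_filter, Finset.mem_product, Finset.mem_range, Finset.mem_range]
  refine ⟨?_, ?_, ?_⟩
  · intro z hz
    exact ((hmem z).1 hz).2.1
  · intro v
    constructor
    · intro hv
      have hN : ¬ R N := fun h => lt_irrefl _ (hR N h)
      have hvN := hR v hv
      have hr : ∃ r, v < r ∧ ¬ R r := ⟨N, hvN, hN⟩
      have hl : ∃ l, l ≤ v ∧ ∀ w, l ≤ w → w ≤ v → R w := ⟨v, le_rfl, fun w h1 h2 => by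
        have : w = v := by omega
        rw [this]; exact hv⟩
      refine ⟨(Nat.find hl, Nat.find hr), (hmem _).2 ⟨⟨?_, ?_⟩, ?_, ?_, ?_, ?_⟩, ?_, ?_⟩
      · have := (Nat.find_spec hl).1
        show Nat.find hl < N + 1
        omega
      · have : Nat.find hr ≤ N := Nat.find_min' hr ⟨hvN, hN⟩
        show Nat.find hr < N + 1
        omega
      · have h1 := (Nat.find_spec hl).1
        have h2 := (Nat.find_spec hr).1
        show Nat.find hl < Nat.find hr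
        omega
      · intro w h1 h2
        rcases le_or_gt w v with h | h
        · exact (Nat.find_spec hl).2 w h1 h
        · by_contra h3
          have := Nat.find_min' hr ⟨h, h3⟩
          have h2' : w < Nat.find hr := h2
          omega
      · exact (Nat.find_spec hr).2
      · by_contra hcon
        push Not at hcon
        obtain ⟨h0, h1⟩ := hcon
        have h0' : Nat.find hl ≠ 0 := h0
        have h1' : R (Nat.find hl - 1) := h1
        have h2 := (Nat.find_spec hl).1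
        have := Nat.find_min' hl (m := Nat.find hl - 1) ⟨by omega, fun w h3 h4 => by
          rcases Nat.eq_or_lt_of_le h3 with h5 | h5
          · rw [← h5]; exact h1'
          · exact (Nat.find_spec hl).2 w (by omega) h4⟩
        omega
      · exact (Nat.find_spec hl).1
      · exact (Nat.find_spec hr).1
    · rintro ⟨z, hz, h1, h2⟩
      exact ((hmem z).1 hz).2.2.1 v h1 h2
  · intro z hz z' hz' hne
    obtain ⟨-, h1, h2, h3, h4⟩ := (hmem z).1 hz
    obtain ⟨-, h1', h2', h3', h4'⟩ := (hmem z').1 hz'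
    by_contra hcon
    push Not at hcon
    obtain ⟨h5, h6⟩ := hcon
    apply hne
    have e1 : z.1 = z'.1 := by
      rcases lt_trichotomy z.1 z'.1 with h | h | h
      · rcases h4' with h7 | h7
        · omega
        · exact absurd (h2 _ (by omega) (by omega)) h7
      · exact h
      · rcases h4 with h7 | h7
        · omega
        · exact absurd (h2' _ (by omega) (by omega)) h7
    have e2 : z.2 = z'.2 := by
      rcases lt_trichotomy z.2 z'.2 with h | h | h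
      · exact absurd (h2' _ (by omega) h) h3
      · exact h
      · exact absurd (h2 _ (by omega) h) h3'
    exact Prod.ext e1 e2

/-- **Module AK_CC2.**  HINT.  A part `z` that contains a key `v ∈ [q.1, q.2)` lies in `[q.1, q.2)`: all keys of `z` are in `R` (`hZ.mem`); if
`z.1 < q.1` then `q.1 - 1 ∈ [z.1, z.2)`; if `q.2 < z.2` then `q.2 ∈ [z.1, z.2)`; both contradict `q ∈ cc R N`. -/
theorem sub_of_mem (hZ : Part R Z) (hq : q ∈ cc R N) {z : ℕ × ℕ} (hz : z ∈ Z) {v : ℕ}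
    (h1 : z.1 ≤ v) (h2 : v < z.2) (h3 : q.1 ≤ v) (h4 : v < q.2) : z ∈ sub Z q := by
  classical
  unfold cc at hq
  rw [Finset.mem_filter] at hq
  obtain ⟨-, -, h5, h6, h7⟩ := hq
  unfold sub
  rw [Finset.mem_filter]
  refine ⟨hz, ?_, ?_⟩
  · by_contra hcon
    rcases h7 with h8 | h8
    · omega
    · exact h8 ((hZ.mem _).2 ⟨z, hz, by omega, by omega⟩)
  · by_contra hcon
    exact h6 ((hZ.mem _).2 ⟨z, hz, by omega, by omega⟩)

/-- **Module AK_CC2.**  HINT.  `sub_of_mem`. -/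
theorem cut_sub (hZ : Part R Z) (hq : q ∈ cc R N) :
    Cut q.1 q.2 (sub Z q) Prod.fst Prod.snd := by
  classical
  have hq' := hq
  unfold cc at hq'
  rw [Finset.mem_filter] at hq'
  obtain ⟨-, -, h5, -, -⟩ := hq'
  refine ⟨fun z hz => hZ.lt z (Finset.mem_filter.1 hz).1,
    fun z hz => (Finset.mem_filter.1 hz).2.1, fun z hz => (Finset.mem_filter.1 hz).2.2, ?_, ?_⟩
  · intro v h1 h2
    obtain ⟨z, hz, h3, h4⟩ := (hZ.mem v).1 (h5 v h1 h2)
    exact ⟨z, sub_of_mem hZ hq hz h3 h4 h1 h2, h3, h4⟩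
  · intro z hz z' hz' hne
    exact hZ.disj z (Finset.mem_filter.1 hz).1 z' (Finset.mem_filter.1 hz').1 hne

/-- **Module AK_CC3.**  HINT.  `Finset.sum_biUnion` (or `Finset.sum_sigma` + bijection): every `z ∈ Z` lies in exactly one `sub Z q`, `q ∈ cc R N`
(`part_cc` for the key `z.1`, `sub_of_mem`; two different members of `cc R N` are disjoint). -/
theorem sum_sub (hR : ∀ v, R v → v < N) (hZ : Part R Z) (f : ℕ × ℕ → ℕ) :
    ∑ q ∈ cc R N, ∑ z ∈ sub Z q, f z = ∑ z ∈ Z, f z := by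
  classical
  have hP := part_cc (R := R) (N := N) hR
  have hZ' : Z = (cc R N).biUnion (sub Z) := by
    ext z
    rw [Finset.mem_biUnion]
    constructor
    · intro hz
      have h1 : R z.1 := (hZ.mem z.1).2 ⟨z, hz, le_rfl, hZ.lt z hz⟩
      obtain ⟨q, hq, h2, h3⟩ := (hP.mem z.1).1 h1
      exact ⟨q, hq, sub_of_mem hZ hq hz le_rfl (hZ.lt z hz) h2 h3⟩
    · rintro ⟨q, _, hz⟩
      exact (Finset.mem_filter.1 hz).1
  have hd : Set.PairwiseDisjoint (↑(cc R N)) (sub Z) := by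
    intro q hq q' hq' hne
    rw [Function.onFun, Finset.disjoint_left]
    intro z hz hz'
    obtain ⟨h1, h2, h3⟩ := Finset.mem_filter.1 hz
    obtain ⟨_, h4, h5⟩ := Finset.mem_filter.1 hz'
    have h6 := hZ.lt z h1
    rcases hP.disj q hq q' hq' hne with h | h
    · omega
    · omega
  conv_rhs => rw [hZ']
  rw [Finset.sum_biUnion hd]

private theorem CC4_mem {R : ℕ → Prop} {N : ℕ} {q : ℕ × ℕ} (h : q ∈ cc R N) :
    q.1 ≤ N ∧ q.2 ≤ N ∧ q.1 < q.2 ∧ (∀ v, q.1 ≤ v → v < q.2 → R v) ∧ ¬ R q.2 ∧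
      (q.1 = 0 ∨ ¬ R (q.1 - 1)) := by
  classical
  obtain ⟨h1, h2⟩ := Finset.mem_filter.1 h
  obtain ⟨h3, h4⟩ := Finset.mem_product.1 h1
  rw [Finset.mem_range] at h3 h4
  exact ⟨by omega, by omega, h2.1, h2.2.1, h2.2.2.1, h2.2.2.2⟩

private theorem CC4_own {R : ℕ → Prop} {N : ℕ} {q : ℕ × ℕ} (h : q ∈ cc R N) : R q.1 := by
  obtain ⟨_, _, h3, h4, _, _⟩ := CC4_mem h
  exact h4 q.1 le_rfl h3

/-- **Module AK_CC4.**  HINT.  Let `q ∈ cc`.  If `2^a ∣ q.1` map `q` to `q.1 / 2^a ∈ act a`; otherwise `q.1 ≥ 1` and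
`(q.1 - 1) / 2^a = q.1 / 2^a ∈ act a`, so `(q.1 - 1) / 2^b ∈ act b` because `q.1 - 1` is not idle; map `q` to it; `q.1 / 2^b ∉ act b`, so
`2^b ∣ q.1` and `q.1 / 2^b = (q.1 - 1) / 2^b + 1`.  Both maps are injective because `q.1` determines `q` (`part_cc`, disjointness: two intervals
with the same left end share a key).  Split `cc` by `2^a ∣ q.1` (`Finset.card_filter_add_card_filter_not` or similar). -/
theorem cc_card (hba : b ≤ a) (hN : ∀ v, Idl m X b a t v → v < N) :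
    (cc (Idl m X b a t) N).card ≤ (act m X a t).card + (act m X b t).card := by
  classical
  have hP := part_cc (R := Idl m X b a t) (N := N) hN
  have hinj : ∀ q ∈ cc (Idl m X b a t) N, ∀ q' ∈ cc (Idl m X b a t) N, q.1 = q'.1 → q = q' := by
    intro q hq q' hq' h
    by_contra hne
    have h1 := hP.lt q hq
    have h2 := hP.lt q' hq'
    rcases hP.disj q hq q' hq' hne with h3 | h3 <;> omega
  rw [← Finset.card_filter_add_card_filter_not (s := cc (Idl m X b a t) N) (fun q => 2 ^ a ∣ q.1)]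
  refine Nat.add_le_add ?_ ?_
  · refine Finset.card_le_card_of_injOn (fun q => q.1 / 2 ^ a) ?_ ?_
    · intro q hq
      obtain ⟨h1, h2⟩ := Finset.mem_filter.1 hq
      exact (CC4_own h1).1
    · intro q hq q' hq' h
      obtain ⟨h1, h2⟩ := Finset.mem_filter.1 hq
      obtain ⟨h3, h4⟩ := Finset.mem_filter.1 hq'
      refine hinj q h1 q' h3 ?_
      have h5 : q.1 / 2 ^ a = q'.1 / 2 ^ a := h
      rw [← Nat.mul_div_cancel' h2, ← Nat.mul_div_cancel' h4, h5]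
  · have hdv : ∀ q ∈ cc (Idl m X b a t) N, ¬ 2 ^ a ∣ q.1 →
        (q.1 - 1) / 2 ^ b ∈ act m X b t ∧ q.1 = 2 ^ b * ((q.1 - 1) / 2 ^ b + 1) := by
      intro q hq hnd
      have h1 : q.1 ≠ 0 := fun h0 => hnd (h0 ▸ dvd_zero _)
      obtain ⟨_, _, _, _, _, h2⟩ := CC4_mem hq
      obtain ⟨k, hk⟩ := Nat.exists_eq_succ_of_ne_zero h1
      have h3 := CC4_own hq
      have hk1 : q.1 - 1 = k := by omega
      rw [hk1]
      have h4 : ¬ Idl m X b a t k := by
        rcases h2 with h2 | h2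
        · exact absurd h2 h1
        · rwa [hk1] at h2
      have hk' : q.1 = k + 1 := hk
      rw [hk'] at hnd h3
      have h5 : (k + 1) / 2 ^ a = k / 2 ^ a := Nat.succ_div_of_not_dvd hnd
      have h6 : k / 2 ^ b ∈ act m X b t := by
        by_contra h7
        exact h4 ⟨h5 ▸ h3.1, h7⟩
      refine ⟨h6, ?_⟩
      have h7 : (k + 1) / 2 ^ b ≠ k / 2 ^ b := fun h8 => h3.2 (h8 ▸ h6)
      have h8 : 2 ^ b ∣ k + 1 := by
        by_contra h9
        exact h7 (Nat.succ_div_of_not_dvd h9)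
      rw [← Nat.succ_div_of_dvd h8, Nat.mul_div_cancel' h8, hk']
    refine Finset.card_le_card_of_injOn (fun q => (q.1 - 1) / 2 ^ b) ?_ ?_
    · intro q hq
      obtain ⟨h1, h2⟩ := Finset.mem_filter.1 hq
      exact (hdv q h1 h2).1
    · intro q hq q' hq' h
      obtain ⟨h1, h2⟩ := Finset.mem_filter.1 hq
      obtain ⟨h3, h4⟩ := Finset.mem_filter.1 hq'
      refine hinj q h1 q' h3 ?_
      have h5 : (q.1 - 1) / 2 ^ b = (q'.1 - 1) / 2 ^ b := h
      rw [(hdv q h1 h2).2, (hdv q' h3 h4).2, h5]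

/-- **Module AK_CC5.**  HINT.  `Idl m X b a t v` depends only on `v / 2^b` (`v / 2^a = v / 2^b / 2^(a-b)`).  If `¬ 2^b ∣ w` then `w ≥ 1` and
`(w - 1) / 2^b = w / 2^b`.  Use it for `w = q.1` (then `q.1 - 1` would be idle) and for `w = q.2` (then `q.2` would be idle). -/
theorem cc_al (hba : b ≤ a) (hq : q ∈ cc (Idl m X b a t) N) : 2 ^ b ∣ q.1 ∧ 2 ^ b ∣ q.2 := by
  obtain ⟨_, _, h3, h4, h5, h6⟩ := CC4_mem hq
  have key : ∀ w, w ≠ 0 → ¬ 2 ^ b ∣ w → (Idl m X b a t (w - 1) ↔ Idl m X b a t w) := by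
    intro w hw hd
    obtain ⟨k, rfl⟩ := Nat.exists_eq_succ_of_ne_zero hw
    have h7 : ¬ 2 ^ a ∣ k + 1 := fun h8 => hd (dvd_trans (pow_dvd_pow 2 hba) h8)
    have h8 : (k + 1) / 2 ^ a = k / 2 ^ a := Nat.succ_div_of_not_dvd h7
    have h9 : (k + 1) / 2 ^ b = k / 2 ^ b := Nat.succ_div_of_not_dvd hd
    unfold Idl
    rw [Nat.succ_eq_add_one, Nat.add_sub_cancel, h8, h9]
  constructor
  · by_contra hd
    have h7 : q.1 ≠ 0 := fun h0 => hd (h0 ▸ dvd_zero _)
    rcases h6 with h6 | h6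
    · exact h7 h6
    · exact h6 ((key q.1 h7 hd).2 (h4 q.1 le_rfl h3))
  · by_contra hd
    have h7 : q.2 ≠ 0 := by omega
    exact h5 ((key q.2 h7 hd).1 (h4 (q.2 - 1) (by omega) (by omega)))

private theorem SM1_mem {b x y i : ℕ} (hx : 2 ^ b ∣ x) (hy : 2 ^ b ∣ y) :
    i ∈ Finset.Ico (x / 2 ^ b) (y / 2 ^ b) ↔ x ≤ i * 2 ^ b ∧ i * 2 ^ b < y := by
  obtain ⟨x', rfl⟩ := hx
  obtain ⟨y', rfl⟩ := hy
  have hb : 0 < 2 ^ b := by positivity
  rw [Finset.mem_Ico, Nat.mul_div_cancel_left _ hb, Nat.mul_div_cancel_left _ hb, mul_comm i,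
    Nat.mul_le_mul_left_iff hb, Nat.mul_lt_mul_left hb]

/-- **Module AK_SM1.**  HINT.  `Finset.sum_biUnion` backwards: `Ico (l / 2^b) (r / 2^b)` is the disjoint union of the `Ico (z.1 / 2^b) (z.2 / 2^b)`,
`z ∈ Λ`: `i ∈ Ico (x / 2^b) (y / 2^b) ↔ x ≤ i * 2^b ∧ i * 2^b < y` for multiples `x`, `y` of `2^b`; `hC.cov`, `hC.left`, `hC.right`, `hC.disj`. -/
theorem cut_sum {l r : ℕ} {Λ : Finset (ℕ × ℕ)} (hC : Cut l r Λ Prod.fst Prod.snd)
    (hl : 2 ^ b ∣ l) (hr : 2 ^ b ∣ r) (hΛ : ∀ z ∈ Λ, 2 ^ b ∣ z.1 ∧ 2 ^ b ∣ z.2) (f : ℕ → ℕ) :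
    ∑ z ∈ Λ, ∑ i ∈ Finset.Ico (z.1 / 2 ^ b) (z.2 / 2 ^ b), f i =
      ∑ i ∈ Finset.Ico (l / 2 ^ b) (r / 2 ^ b), f i := by
  classical
  have hd : Set.PairwiseDisjoint (↑Λ) (fun z : ℕ × ℕ => Finset.Ico (z.1 / 2 ^ b) (z.2 / 2 ^ b)) := by
    intro z hz z' hz' hne
    rw [Function.onFun, Finset.disjoint_left]
    intro i hi hi'
    rw [SM1_mem (hΛ z hz).1 (hΛ z hz).2] at hi
    rw [SM1_mem (hΛ z' hz').1 (hΛ z' hz').2] at hi'
    rcases hC.disj z hz z' hz' hne with h | h <;> omega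
  rw [← Finset.sum_biUnion hd]
  congr 1
  ext i
  rw [Finset.mem_biUnion, SM1_mem hl hr]
  constructor
  · rintro ⟨z, hz, hi⟩
    rw [SM1_mem (hΛ z hz).1 (hΛ z hz).2] at hi
    have h1 := hC.left z hz
    have h2 := hC.right z hz
    omega
  · rintro ⟨h1, h2⟩
    obtain ⟨z, hz, h3, h4⟩ := hC.cov (i * 2 ^ b) h1 h2
    exact ⟨z, hz, (SM1_mem (hΛ z hz).1 (hΛ z hz).2).2 ⟨h3, h4⟩⟩

/-- **Module AK_SM2.**  HINT.  `N ∈ blk a s \ act s ↔ Idl m X s a t (N * 2^s)` (`mem_blk`, `N * 2^s / 2^a = N / 2^(a-s)`), then as in `cut_sum`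
with `hZ.mem`, `hZ.disj`. -/
theorem part_sum (hsa : s ≤ a) (hZ : Part (Idl m X s a t) Z)
    (hal : ∀ z ∈ Z, 2 ^ s ∣ z.1 ∧ 2 ^ s ∣ z.2) (g : ℕ → ℕ) :
    ∑ z ∈ Z, ∑ i ∈ Finset.Ico (z.1 / 2 ^ s) (z.2 / 2 ^ s), g i = ∑ i ∈ idb m X s a t, g i := by
  classical
  have hd : Set.PairwiseDisjoint (↑Z) (fun z : ℕ × ℕ => Finset.Ico (z.1 / 2 ^ s) (z.2 / 2 ^ s)) := by
    intro z hz z' hz' hne
    rw [Function.onFun, Finset.disjoint_left]
    intro i hi hi'
    rw [SM1_mem (hal z hz).1 (hal z hz).2] at hi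
    rw [SM1_mem (hal z' hz').1 (hal z' hz').2] at hi'
    rcases hZ.disj z hz z' hz' hne with h | h <;> omega
  rw [← Finset.sum_biUnion hd]
  congr 1
  ext i
  have h0 : i ∈ idb m X s a t ↔ Idl m X s a t (i * 2 ^ s) := by
    have hs : 0 < 2 ^ s := by positivity
    have h1 : 2 ^ a = 2 ^ s * 2 ^ (a - s) := by rw [← pow_add, Nat.add_sub_cancel' hsa]
    rw [idb, Finset.mem_sdiff, mem_blk]
    unfold Idl
    rw [h1, ← Nat.div_div_eq_div_mul, Nat.mul_div_cancel _ hs]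
  rw [Finset.mem_biUnion, h0, hZ.mem]
  constructor
  · rintro ⟨z, hz, hi⟩
    rw [SM1_mem (hal z hz).1 (hal z hz).2] at hi
    exact ⟨z, hz, hi⟩
  · rintro ⟨z, hz, hi⟩
    exact ⟨z, hz, (SM1_mem (hal z hz).1 (hal z hz).2).2 hi⟩

/-- **Module AK_RG.**  HINT.  `v / 2^a = X u / 2^a` for some `u < m` (`mem_act`), `X u ∈ [2^A, 2^(A+1))` (`S.req`, `S.key`, `Rng`), and
`2^a ∣ 2^A`, `2^a ∣ 2^(A+1)`. -/
theorem idl_rng {S : Sys} {A : ℕ} (hR : Rng S A) (haA : a ≤ A) {v : ℕ}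
    (h : Idl S.m S.X b a t v) : 2 ^ A ≤ v ∧ v < S.top := by
  obtain ⟨u, hu, _, h2⟩ := mem_act.1 h.1
  have h3 := S.req u hu
  have h4 := hR.low _ h3
  have h5 := (S.key _ h3).2
  rw [hR.top] at h5 ⊢
  have ha : 0 < 2 ^ a := by positivity
  have e1 : 2 ^ A = 2 ^ (A - a) * 2 ^ a := by rw [← pow_add, Nat.sub_add_cancel haA]
  have e2 : 2 ^ (A + 1) = 2 ^ (A + 1 - a) * 2 ^ a := by rw [← pow_add, Nat.sub_add_cancel (by omega)]
  rw [e1] at h4 ⊢
  rw [e2] at h5 ⊢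
  constructor
  · rw [← Nat.le_div_iff_mul_le ha] at h4 ⊢
    rwa [← h2]
  · rw [← Nat.div_lt_iff_lt_mul ha] at h5 ⊢
    rwa [← h2]

/-- **Module AK_RG.** -/
theorem idl_succ (hba : b ≤ a) (h : ¬ 2 ^ b ∣ t + 1) : Idl m X b a (t + 1) = Idl m X b a t := by
  have h1 : ¬ 2 ^ a ∣ t + 1 := fun h2 => h (dvd_trans (pow_dvd_pow 2 hba) h2)
  funext v
  unfold Idl
  rw [act_succ h, act_succ h1]

/-- **Module AK_RG.**  HINT.  `act_up`: for `b ≤ s ≤ a` a key which is in an active block of scale `s` is in an active block of scale `a`; a key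
in no active block of scale `s` is in no active block of scale `b`. -/
theorem idl_split (hbs : b ≤ s) (hsa : s ≤ a) (v : ℕ) :
    Idl m X b a t v ↔ Idl m X b s t v ∨ Idl m X s a t v := by
  have e1 : v / 2 ^ s ∈ act m X s t → v / 2 ^ a ∈ act m X a t := by
    intro h
    have h1 := act_up (a - s) h
    rwa [Nat.div_div_eq_div_mul, ← pow_add, Nat.add_sub_cancel' hsa] at h1
  have e2 : v / 2 ^ b ∈ act m X b t → v / 2 ^ s ∈ act m X s t := by
    intro h
    have h1 := act_up (s - b) h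
    rwa [Nat.div_div_eq_div_mul, ← pow_add, Nat.add_sub_cancel' hbs] at h1
  unfold Idl
  constructor
  · rintro ⟨h1, h2⟩
    by_cases h3 : v / 2 ^ s ∈ act m X s t
    · exact Or.inl ⟨h3, h2⟩
    · exact Or.inr ⟨h1, h3⟩
  · rintro (⟨h1, h2⟩ | ⟨h1, h2⟩)
    · exact ⟨e1 h1, h2⟩
    · exact ⟨h1, fun h3 => h2 (e2 h3)⟩

/-- **Module AK_RG.**  HINT.  `idl_split`; a part of `Z` lies in active blocks of scale `s`, a part of `W` does not. -/
theorem part_union (hbs : b ≤ s) (hsa : s ≤ a) {W : Finset (ℕ × ℕ)}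
    (hZ : Part (Idl m X b s t) Z) (hW : Part (Idl m X s a t) W) :
    Disjoint Z W ∧ Part (Idl m X b a t) (Z ∪ W) := by
  have hno : ∀ z ∈ Z, ∀ w ∈ W, ∀ v, z.1 ≤ v → v < z.2 → w.1 ≤ v → v < w.2 → False := by
    intro z hz w hw v h1 h2 h3 h4
    have h5 : Idl m X b s t v := (hZ.mem v).2 ⟨z, hz, h1, h2⟩
    have h6 : Idl m X s a t v := (hW.mem v).2 ⟨w, hw, h3, h4⟩
    exact h6.2 h5.1
  have hdj : ∀ z ∈ Z, ∀ w ∈ W, z.2 ≤ w.1 ∨ w.2 ≤ z.1 := by
    intro z hz w hw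
    by_contra h
    push Not at h
    have h1 := hZ.lt z hz
    have h2 := hW.lt w hw
    rcases Nat.le_total z.1 w.1 with h3 | h3
    · exact hno z hz w hw w.1 h3 h.1 le_rfl h2
    · exact hno z hz w hw z.1 le_rfl h1 h3 h.2
  constructor
  · rw [Finset.disjoint_left]
    intro z hz hz'
    exact hno z hz z hz' z.1 le_rfl (hZ.lt z hz) le_rfl (hZ.lt z hz)
  · refine ⟨?_, ?_, ?_⟩
    · intro z hz
      rcases Finset.mem_union.1 hz with h | h
      · exact hZ.lt z h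
      · exact hW.lt z h
    · intro v
      rw [idl_split hbs hsa v, hZ.mem, hW.mem]
      constructor
      · rintro (⟨z, hz, h⟩ | ⟨z, hz, h⟩)
        · exact ⟨z, Finset.mem_union_left _ hz, h⟩
        · exact ⟨z, Finset.mem_union_right _ hz, h⟩
      · rintro ⟨z, hz, h⟩
        rcases Finset.mem_union.1 hz with h1 | h1
        · exact Or.inl ⟨z, h1, h⟩
        · exact Or.inr ⟨z, h1, h⟩
    · intro z hz w hw hne
      rcases Finset.mem_union.1 hz with h1 | h1 <;> rcases Finset.mem_union.1 hw with h2 | h2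
      · exact hZ.disj z h1 w h2 hne
      · exact hdj z h1 w h2
      · exact (hdj w h2 z h1).symm
      · exact hW.disj z h1 w h2 hne

end Pool.Agent.SplAk
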