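import Pool.Agent.SplAk.Int
import Pool.Agent.SplAk.Blk

set_option autoImplicit false

/-!
# Composition of the parts, and the recursion step
-/

namespace Pool.Agent.SplAk

open Pool.Agent.SplLog Pool.Agent.SplPat Pool.Agent.SplLs

variable {S : Sys} {A D a b c c0 s t μ r ν : ℕ} {P : ℕ → ℕ → ℕ}

/-- The potential of the composition of the parts in a maximal idle interval. -/
noncomputable def eC (S : Sys) (c : ℕ) (Z : ℕ → Finset (ℕ × ℕ)) (E : ℕ → ℕ → ℕ × ℕ → ℕ)
    (t u : ℕ) (q : ℕ × ℕ) : ℕ :=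
  2 * ∑ z ∈ sub (Z t) q, E t u z + cp S u q.1 q.2 (sub (Z t) q) Prod.fst Prod.snd c

private theorem PC1_range (hH : Hyp S A D) (haA : a ≤ A)
    {q : ℕ × ℕ} (hq : q ∈ cc (Idl S.m S.X b a t) S.top) : 1 ≤ q.1 ∧ q.2 ≤ S.top := by
  classical
  unfold cc at hq
  obtain ⟨_, h1, h2, _⟩ := Finset.mem_filter.1 hq
  have h3 := idl_rng hH.rng haA (h2 q.1 le_rfl h1)
  have h4 := idl_rng hH.rng haA (h2 (q.2 - 1) (by omega) (by omega))
  have h5 : 0 < 2 ^ A := by positivity
  omega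

private theorem PC2_sum (hH : Hyp S A D) (haA : a ≤ A) (Q : Pre S D b a c μ r ν P)
    (t u : ℕ) : ∑ q ∈ cc (Idl S.m S.X b a t) S.top, eC S c Q.Z Q.E t u q =
      2 * ∑ z ∈ Q.Z t, Q.E t u z + ∑ q ∈ cc (Idl S.m S.X b a t) S.top,
        cp S u q.1 q.2 (sub (Q.Z t) q) Prod.fst Prod.snd c := by
  unfold eC
  rw [Finset.sum_add_distrib, ← Finset.mul_sum,
    sum_sub (fun v hv => (idl_rng hH.rng haA hv).2) (Q.part t)]

private theorem PC2_cp (hH : Hyp S A D) (haA : a ≤ A) (Q : Pre S D b a c μ r ν P)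
    {u : ℕ} (hu : u ≤ S.m) : ∑ q ∈ cc (Idl S.m S.X b a t) S.top,
        cp S u q.1 q.2 (sub (Q.Z t) q) Prod.fst Prod.snd c ≤ Kc c * (Q.Z t).card := by
  have h1 : ∑ q ∈ cc (Idl S.m S.X b a t) S.top,
      cp S u q.1 q.2 (sub (Q.Z t) q) Prod.fst Prod.snd c ≤
      ∑ q ∈ cc (Idl S.m S.X b a t) S.top, Kc c * ∑ z ∈ sub (Q.Z t) q, 1 := by
    refine Finset.sum_le_sum fun q hq => ?_
    obtain ⟨hl, hr⟩ := PC1_range hH haA hq
    rw [← Finset.card_eq_sum_ones]
    exact cp_le hu hl hr (cut_sub (Q.part t) hq) c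
  rw [← Finset.mul_sum, sum_sub (fun v hv => (idl_rng hH.rng haA hv).2) (Q.part t),
    ← Finset.card_eq_sum_ones] at h1
  exact h1

/-- **Module AK_PC1.**  HINT.  `SplLs.comp` with `Λ = sub (Q.Z t) q`, `cut_sub` (`Q.part t`), `A z = μ * bs P b t z + E t t z`; range of `q`: `1 ≤ q.1` and
`q.2 ≤ S.top` by `idl_rng` for the keys `q.1` and `q.2 - 1`.  `∑_z bs P b t z = bs P b t q` (`cut_sum`, `cc_al`, `Q.al`), and
`2 * ∑ (μ * bs + E) + cp = 2 * μ * bs P b t q + eC`. -/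
theorem pc_st (hH : Hyp S A D) (haA : a ≤ A) (hba : b ≤ a) (Q : Pre S D b a c μ r ν P)
    (ht : t < S.m) {q : ℕ × ℕ} (hq : q ∈ cc (Idl S.m S.X b a t) S.top) :
    St S t q.1 q.2 (8 * c + 3) (2 * μ * bs P b t q + eC S c Q.Z Q.E t t q)
      (2 * μ * bs P b (t + 1) q + eC S c Q.Z Q.E t (t + 1) q) := by
  obtain ⟨hl, hr⟩ := PC1_range hH haA hq
  have hC := cut_sub (Q.part t) hq
  have h1 := comp hH.thr hH.thr' ht hl hr hC
    (fun z => μ * bs P b t z + Q.E t t z) (fun z => μ * bs P b (t + 1) z + Q.E t (t + 1) z)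
    (fun z hz => Q.st t ht z (Finset.mem_filter.1 hz).1)
  have h2 : ∀ u u', 2 * ∑ z ∈ sub (Q.Z t) q, (μ * bs P b u z + Q.E t u' z) +
      cp S u' q.1 q.2 (sub (Q.Z t) q) Prod.fst Prod.snd c =
      2 * μ * bs P b u q + eC S c Q.Z Q.E t u' q := by
    intro u u'
    have h3 : ∑ z ∈ sub (Q.Z t) q, bs P b u z = bs P b u q := by
      have h4 := cc_al hba hq
      exact cut_sum hC h4.1 h4.2 (fun z hz => Q.al t z (Finset.mem_filter.1 hz).1) (P u)
    rw [Finset.sum_add_distrib, ← Finset.mul_sum, h3]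
    unfold eC
    ring
  rw [h2 t t, h2 (t + 1) (t + 1)] at h1
  exact h1

/-- **Module AK_PC2.**  HINT.  `eC` = first summand + `cp`.  First summands: `sum_sub`, `Q.step`.  The `cp`: if `2^b ∤ t+1` then `Q.const`, `idl_succ`: the
same sums; otherwise `cp_le` (`cut_sub`, range by `idl_rng`) and `sum_sub` with `f = 1` (`∑_q (sub (Z (t+1)) q).card = (Z (t+1)).card`). -/
theorem pc_step (hH : Hyp S A D) (haA : a ≤ A) (hba : b ≤ a) (Q : Pre S D b a c μ r ν P)
    (ht : t + 1 < S.m) :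
    ∑ q ∈ cc (Idl S.m S.X b a (t + 1)) S.top, eC S c Q.Z Q.E (t + 1) (t + 1) q ≤
      ∑ q ∈ cc (Idl S.m S.X b a t) S.top, eC S c Q.Z Q.E t (t + 1) q +
      (2 * Q.re (t + 1) + if 2 ^ b ∣ t + 1 then Kc c * (Q.Z (t + 1)).card else 0) := by
  rw [PC2_sum hH haA Q (t + 1) (t + 1), PC2_sum hH haA Q t (t + 1)]
  have h1 := Q.step t ht
  by_cases hb : 2 ^ b ∣ t + 1
  · rw [if_pos hb]
    have h2 := PC2_cp hH haA Q (t := t + 1) (u := t + 1) ht.le
    omega
  · rw [if_neg hb, Q.const t hb, idl_succ hba hb]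
    rw [Q.const t hb] at h1
    omega

/-- **Module AK_PC2.**  HINT.  As `pc_step`; `Q.zero`, `cp_le`. -/
theorem pc_zero (hH : Hyp S A D) (haA : a ≤ A) (hba : b ≤ a) (Q : Pre S D b a c μ r ν P) :
    ∑ q ∈ cc (Idl S.m S.X b a 0) S.top, eC S c Q.Z Q.E 0 0 q ≤
      2 * Q.re 0 + if 2 ^ b ∣ 0 then Kc c * (Q.Z 0).card else 0 := by
  rw [PC2_sum hH haA Q 0 0, if_pos (dvd_zero _)]
  have h1 := Q.zero
  have h2 := PC2_cp hH haA Q (t := 0) (u := 0) (Nat.zero_le _)
  omega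

/-- **Module AK_PC3.**  HINT.  `E = eC S c Q.Z Q.E`, `re t = 2 * Q.re t + if 2^b ∣ t then Kc c * (Q.Z t).card else 0`; `pc_st`, `pc_step`, `pc_zero`; the sum:
`Finset.sum_add_distrib`, `Finset.mul_sum`, `Finset.sum_filter`, `Q.sum`, `Q.cnt`. -/
theorem pre_sch (hH : Hyp S A D) (haA : a ≤ A) (hba : b ≤ a) (h : PSc S D b a c0 c μ r ν) :
    Sch S D b a c0 (8 * c + 3) (2 * μ) (2 * r + Kc c * ν) := by
  intro P hP
  obtain ⟨Q⟩ := h P hP
  exact ⟨{
    E := eC S c Q.Z Q.E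
    re := fun t => 2 * Q.re t + if 2 ^ b ∣ t then Kc c * (Q.Z t).card else 0
    st := fun t ht q hq => pc_st hH haA hba Q ht hq
    step := fun t ht => pc_step hH haA hba Q ht
    zero := pc_zero hH haA hba Q
    sum := by
      rw [Finset.sum_add_distrib, ← Finset.mul_sum, ← Finset.sum_filter, ← Finset.mul_sum]
      have h1 := Q.sum
      have h2 := Nat.mul_le_mul_left (Kc c) Q.cnt
      calc 2 ^ b * (2 * ∑ t ∈ Finset.range S.m, Q.re t +
            Kc c * ∑ t ∈ (Finset.range S.m).filter (fun t => 2 ^ b ∣ t), (Q.Z t).card)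
          = 2 * (2 ^ b * ∑ t ∈ Finset.range S.m, Q.re t) +
            Kc c * (2 ^ b * ∑ t ∈ (Finset.range S.m).filter (fun t => 2 ^ b ∣ t),
              (Q.Z t).card) := by ring
        _ ≤ 2 * (r * D) + Kc c * (ν * D) := by omega
        _ = (2 * r + Kc c * ν) * D := by ring }⟩

open scoped Classical in
/-- The extra potentials of the union of the partition of `(b, s)` and the maximal intervals of `(s, a)`. -/
noncomputable def eU (S : Sys) (b s c0 μ : ℕ) (Z : ℕ → Finset (ℕ × ℕ)) (E E' : ℕ → ℕ → ℕ × ℕ → ℕ)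
    (t u : ℕ) (z : ℕ × ℕ) : ℕ :=
  if z ∈ Z t then E t u z else
    E' t u z + μ * ∑ N ∈ Finset.Ico (z.1 / 2 ^ s) (z.2 / 2 ^ s), cq S b s c0 u N

/-- **Module AK_ST1.**  HINT.  `z ∈ Q.Z t`: `Q.st` (with `2 * μ`).  `z ∈ cc (Idl s a)`: not in `Q.Z t` (`part_union`, `part_cc`, `idl_rng`);
`W.st`, where `μ * bs (up ..) s t z + W.E t t z = 2 * μ * bs P b t z + eU` by `bs_up` (`cc_al`). -/
theorem us_st (hH : Hyp S A D) (hbs : b ≤ s) (hsa : s ≤ a) (haA : a ≤ A)
    (Q : Pre S D b s c (2 * μ) r ν P) {r2 : ℕ} (W : Scm S D s a c μ r2 (up S b s c0 P))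
    (ht : t < S.m) {z : ℕ × ℕ} (hz : z ∈ Q.Z t ∪ cc (Idl S.m S.X s a t) S.top) :
    St S t z.1 z.2 c (2 * μ * bs P b t z + eU S b s c0 μ Q.Z Q.E W.E t t z)
      (2 * μ * bs P b (t + 1) z + eU S b s c0 μ Q.Z Q.E W.E t (t + 1) z) := by
  have hcc : Part (Idl S.m S.X s a t) (cc (Idl S.m S.X s a t) S.top) :=
    part_cc (fun v h => (idl_rng hH.rng haA h).2)
  by_cases hzQ : z ∈ Q.Z t
  · have h := Q.st t ht z hzQ
    have e1 : ∀ u, eU S b s c0 μ Q.Z Q.E W.E t u z = Q.E t u z := by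
      intro u
      unfold eU
      rw [if_pos hzQ]
    rw [e1, e1]
    exact h
  · have hzc : z ∈ cc (Idl S.m S.X s a t) S.top := (Finset.mem_union.mp hz).resolve_left hzQ
    have h := W.st t ht z hzc
    have hal := cc_al hsa hzc
    have hlt := hcc.lt z hzc
    have e1 : ∀ u, 2 * μ * bs P b u z + eU S b s c0 μ Q.Z Q.E W.E t u z =
        μ * bs (up S b s c0 P) s u z + W.E t u z := by
      intro u
      unfold eU
      rw [if_neg hzQ, bs_up hbs hlt.le hal.1 hal.2]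
      ring
    rw [e1, e1]
    exact h

/-- **Module AK_ST2.**  HINT.  Disjoint union (`part_union` with `part_cc`, range by `idl_rng`), `Finset.sum_union`, then `if` is decided on each part;
`part_sum` (with `part_cc`, `cc_al`). -/
theorem us_sum (hH : Hyp S A D) (hbs : b ≤ s) (hsa : s ≤ a) (haA : a ≤ A)
    {Z : ℕ → Finset (ℕ × ℕ)} (hZ : ∀ t, Part (Idl S.m S.X b s t) (Z t))
    (E E' : ℕ → ℕ → ℕ × ℕ → ℕ) (t u : ℕ) :
    ∑ z ∈ Z t ∪ cc (Idl S.m S.X s a t) S.top, eU S b s c0 μ Z E E' t u z =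
      ∑ z ∈ Z t, E t u z + ∑ z ∈ cc (Idl S.m S.X s a t) S.top, E' t u z +
      μ * ∑ N ∈ idb S.m S.X s a t, cq S b s c0 u N := by
  have hcc : Part (Idl S.m S.X s a t) (cc (Idl S.m S.X s a t) S.top) :=
    part_cc (fun v h => (idl_rng hH.rng haA h).2)
  have hd := (part_union hbs hsa (hZ t) hcc).1
  rw [Finset.sum_union hd]
  have e1 : ∑ z ∈ Z t, eU S b s c0 μ Z E E' t u z = ∑ z ∈ Z t, E t u z := by
    refine Finset.sum_congr rfl (fun z hz => ?_)
    unfold eU
    rw [if_pos hz]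
  have e2 : ∑ z ∈ cc (Idl S.m S.X s a t) S.top, eU S b s c0 μ Z E E' t u z =
      ∑ z ∈ cc (Idl S.m S.X s a t) S.top, (E' t u z +
        μ * ∑ N ∈ Finset.Ico (z.1 / 2 ^ s) (z.2 / 2 ^ s), cq S b s c0 u N) := by
    refine Finset.sum_congr rfl (fun z hz => ?_)
    have hz' : z ∉ Z t := fun h => (Finset.disjoint_left.mp hd) h hz
    unfold eU
    rw [if_neg hz']
  rw [e1, e2, Finset.sum_add_distrib, ← Finset.mul_sum,
    part_sum hsa hcc (fun z hz => cc_al hsa hz), add_assoc]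

/-- **Module AK_ST3.**  HINT.  For `b ≤ j ≤ A`: `2^b * ∑_{2^b ∣ t} #act j t ≤ D` (`act_sum` with `k = b`, `2^b * 2^(j-b) = 2^j`, `hH.cells`). -/
theorem act_cnt (hH : Hyp S A D) {j : ℕ} (hbj : b ≤ j) (hjA : j ≤ A) :
    2 ^ b * ∑ t ∈ (Finset.range S.m).filter (fun t => 2 ^ b ∣ t), (act S.m S.X j t).card ≤ D := by
  have h := act_sum (m := S.m) (X := S.X) hbj
  have h2 := hH.cells j hjA
  have e : 2 ^ b * 2 ^ (j - b) = 2 ^ j := by rw [← pow_add, Nat.add_sub_cancel' hbj]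
  calc 2 ^ b * ∑ t ∈ (Finset.range S.m).filter (fun t => 2 ^ b ∣ t), (act S.m S.X j t).card
      ≤ 2 ^ b * (2 ^ (j - b) * (cells (2 ^ j) S.m S.X).card) := Nat.mul_le_mul_left _ h
    _ = 2 ^ j * (cells (2 ^ j) S.m S.X).card := by rw [← mul_assoc, e]
    _ ≤ D := h2

/-- **Module AK_ST3.**  HINT.  Given `P` with `Fam S b c0 P`: `Q` from `h1`, `W` from `h2 (up S b s c0 P) (fam_up ..)`.  Take
`Z t = Q.Z t ∪ cc (Idl s a t)`, `E = eU ..`, `re t = Q.re t + W.re t + μ * rq S.m S.X b s a c0 t`.  `part`: `part_union`, `part_cc`; `al`: `Q.al`, `cc_al`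
(`2^b ∣ 2^s`); `st`: `us_st`; `step`, `zero`: `us_sum`, `idb_step`, `idb_zero`; `sum`: `Q.sum`, `rq_sum`, and
`2^s * ∑ W.re ≤ r2 * D ≤ ρ * 2^(s-b) * D` gives `2^b * ∑ W.re ≤ ρ * D`; `const`: `Q.const`, `idl_succ` (`2^b ∣ 2^s`); `cnt`: `cc_card`, `act_cnt`. -/
theorem pre_step (hH : Hyp S A D) (hbs : b ≤ s) (hsa : s ≤ a) (haA : a ≤ A) {ρ r2 : ℕ}
    (h1 : PSc S D b s c0 c (2 * μ) r ν) (h2 : Sch S D s a (8 * c0 + 3) c μ r2)
    (hr : r2 ≤ ρ * 2 ^ (s - b)) :
    PSc S D b a c0 c (2 * μ) (r + ρ + 2 * μ * Kc c0) (ν + 2) := by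
  intro P hP
  obtain ⟨Q⟩ := h1 P hP
  obtain ⟨W⟩ := h2 (up S b s c0 P) (fam_up hH.thr hH.thr' hbs hP)
  have hcc : ∀ t, Part (Idl S.m S.X s a t) (cc (Idl S.m S.X s a t) S.top) :=
    fun t => part_cc (fun v h => (idl_rng hH.rng haA h).2)
  have hds : (2 ^ b : ℕ) ∣ 2 ^ s := pow_dvd_pow 2 hbs
  refine ⟨{ Z := fun t => Q.Z t ∪ cc (Idl S.m S.X s a t) S.top
            E := eU S b s c0 μ Q.Z Q.E W.E
            re := fun t => Q.re t + W.re t + μ * rq S.m S.X b s a c0 t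
            part := fun t => (part_union hbs hsa (Q.part t) (hcc t)).2
            al := ?_
            st := fun t ht z hz => us_st hH hbs hsa haA Q W ht hz
            step := ?_
            zero := ?_
            sum := ?_
            const := ?_
            cnt := ?_ }⟩
  · intro t z hz
    rcases Finset.mem_union.mp hz with h | h
    · exact Q.al t z h
    · have h' := cc_al hsa h
      exact ⟨hds.trans h'.1, hds.trans h'.2⟩
  · intro t ht
    rw [us_sum hH hbs hsa haA Q.part, us_sum hH hbs hsa haA Q.part]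
    have i1 := Q.step t ht
    have i2 := W.step t ht
    have i3 := Nat.mul_le_mul_left μ (idb_step (c := c0) hH.rng haA hbs hsa ht)
    rw [Nat.mul_add] at i3
    omega
  · rw [us_sum hH hbs hsa haA Q.part]
    have i1 := Q.zero
    have i2 := W.zero
    have i3 := Nat.mul_le_mul_left μ (idb_zero (c := c0) hH.rng haA hbs hsa)
    omega
  · have i1 := Q.sum
    have i2 : 2 ^ b * ∑ t ∈ Finset.range S.m, W.re t ≤ ρ * D := by
      have e : 2 ^ s = 2 ^ (s - b) * 2 ^ b := by rw [← pow_add, Nat.sub_add_cancel hbs]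
      have h3 := W.sum
      rw [e] at h3
      have h4 : 2 ^ (s - b) * (2 ^ b * ∑ t ∈ Finset.range S.m, W.re t) ≤ 2 ^ (s - b) * (ρ * D) := by
        calc 2 ^ (s - b) * (2 ^ b * ∑ t ∈ Finset.range S.m, W.re t)
            = 2 ^ (s - b) * 2 ^ b * ∑ t ∈ Finset.range S.m, W.re t := by ring
          _ ≤ r2 * D := h3
          _ ≤ ρ * 2 ^ (s - b) * D := Nat.mul_le_mul_right _ hr
          _ = 2 ^ (s - b) * (ρ * D) := by ring
      exact Nat.le_of_mul_le_mul_left h4 (by positivity)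
    have i3 := Nat.mul_le_mul_left μ (rq_sum (c := c0) hH haA hbs hsa)
    have e2 : ∑ t ∈ Finset.range S.m, (Q.re t + W.re t + μ * rq S.m S.X b s a c0 t) =
        ∑ t ∈ Finset.range S.m, Q.re t + ∑ t ∈ Finset.range S.m, W.re t +
          μ * ∑ t ∈ Finset.range S.m, rq S.m S.X b s a c0 t := by
      rw [Finset.sum_add_distrib, Finset.sum_add_distrib, Finset.mul_sum]
    rw [e2]
    calc 2 ^ b * (∑ t ∈ Finset.range S.m, Q.re t + ∑ t ∈ Finset.range S.m, W.re t +
          μ * ∑ t ∈ Finset.range S.m, rq S.m S.X b s a c0 t)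
        = 2 ^ b * ∑ t ∈ Finset.range S.m, Q.re t + 2 ^ b * ∑ t ∈ Finset.range S.m, W.re t +
          μ * (2 ^ b * ∑ t ∈ Finset.range S.m, rq S.m S.X b s a c0 t) := by ring
      _ ≤ r * D + ρ * D + μ * (2 * Kc c0 * D) := Nat.add_le_add (Nat.add_le_add i1 i2) i3
      _ = (r + ρ + 2 * μ * Kc c0) * D := by ring
  · intro t h
    have h' : ¬ 2 ^ s ∣ t + 1 := fun hd => h (hds.trans hd)
    show Q.Z (t + 1) ∪ cc (Idl S.m S.X s a (t + 1)) S.top = Q.Z t ∪ cc (Idl S.m S.X s a t) S.top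
    rw [Q.const t h, idl_succ hsa h']
  · have hle : ∑ t ∈ (Finset.range S.m).filter (fun t => 2 ^ b ∣ t),
        (Q.Z t ∪ cc (Idl S.m S.X s a t) S.top).card ≤
        ∑ t ∈ (Finset.range S.m).filter (fun t => 2 ^ b ∣ t), (Q.Z t).card +
        (∑ t ∈ (Finset.range S.m).filter (fun t => 2 ^ b ∣ t), (act S.m S.X a t).card +
        ∑ t ∈ (Finset.range S.m).filter (fun t => 2 ^ b ∣ t), (act S.m S.X s t).card) := by
      rw [← Finset.sum_add_distrib, ← Finset.sum_add_distrib]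
      refine Finset.sum_le_sum (fun t _ => ?_)
      refine le_trans (Finset.card_union_le _ _) (Nat.add_le_add_left ?_ _)
      exact cc_card hsa (fun v h => (idl_rng hH.rng haA h).2)
    have j1 := Q.cnt
    have j2 := act_cnt hH (hbs.trans hsa) haA
    have j3 := act_cnt hH hbs (hsa.trans haA)
    have j4 := Nat.mul_le_mul_left (2 ^ b) hle
    refine le_trans j4 ?_
    rw [Nat.mul_add, Nat.mul_add]
    calc _ ≤ ν * D + (D + D) := Nat.add_le_add j1 (Nat.add_le_add j2 j3)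
      _ = (ν + 2) * D := by ring

/-- **Module AK_PB.**  HINT.  `Z t = ∅`, `E = 0`, `re = 0`; no key is idle at `(b, b)`. -/
theorem pre_refl : PSc S D b b c0 c μ 0 0 := by
  intro P hP
  exact ⟨{
    Z := fun _ => ∅
    E := fun _ _ _ => 0
    re := fun _ => 0
    part := fun t => ⟨by simp, fun v => by simp [Idl], by simp⟩
    al := by simp
    st := by simp
    step := by simp
    zero := by simp
    sum := by simp
    const := by simp
    cnt := by simp }⟩

/-- **Module AK_PB.**  HINT.  `Z t` = the intervals `(i * 2^b, (i+1) * 2^b)`, `i ∈ itm m X b t` (image), `E = 0`, `re = 0`.  `st`: `Fam`, range from `idl_rng`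
(`(i * 2^b, (i+1) * 2^b)` consists of idle keys), `bs P b t z = P t i`.  `cnt`: `(Z t).card ≤ 2 * #act (b+1) t` (`itm_card`), `act_cnt`
(`j = b + 1`).  `const`: `itm_succ`. -/
theorem pre_one (hH : Hyp S A D) (hb : b + 1 ≤ A) : PSc S D b (b + 1) c0 c0 1 0 2 := by
  intro P hP
  have hpos : 0 < 2 ^ b := by positivity
  have hidl : ∀ t v, Idl S.m S.X b (b + 1) t v ↔ v / 2 ^ b ∈ itm S.m S.X b t := by
    intro t v
    have e : v / 2 ^ (b + 1) = v / 2 ^ b / 2 := by
      rw [pow_succ, Nat.div_div_eq_div_mul]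
    unfold Idl itm
    rw [Finset.mem_sdiff, Finset.mem_biUnion, e]
    constructor
    · rintro ⟨h1, h2⟩
      refine ⟨⟨v / 2 ^ b / 2, h1, ?_⟩, h2⟩
      simp only [Finset.mem_insert, Finset.mem_singleton]
      omega
    · rintro ⟨⟨i, h1, h3⟩, h2⟩
      refine ⟨?_, h2⟩
      simp only [Finset.mem_insert, Finset.mem_singleton] at h3
      have : v / 2 ^ b / 2 = i := by omega
      rw [this]
      exact h1
  have hblk : ∀ i v, i * 2 ^ b ≤ v ∧ v < (i + 1) * 2 ^ b ↔ v / 2 ^ b = i := by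
    intro i v
    constructor
    · rintro ⟨h1, h2⟩
      exact Nat.div_eq_of_lt_le h1 h2
    · intro h
      subst h
      exact ⟨Nat.div_mul_le_self v (2 ^ b), by
        rw [add_mul, one_mul]
        exact Nat.lt_div_mul_add hpos⟩
  have hinj : Function.Injective (fun i : ℕ => (i * 2 ^ b, (i + 1) * 2 ^ b)) := by
    intro i j hij
    have h1 : i * 2 ^ b = j * 2 ^ b := (Prod.mk.injEq _ _ _ _ ▸ hij).1
    exact Nat.eq_of_mul_eq_mul_right hpos h1
  have hpart : ∀ t, Part (Idl S.m S.X b (b + 1) t)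
      ((itm S.m S.X b t).image (fun i => (i * 2 ^ b, (i + 1) * 2 ^ b))) := by
    intro t
    refine ⟨?_, ?_, ?_⟩
    · intro z hz
      obtain ⟨i, hi, rfl⟩ := Finset.mem_image.mp hz
      show i * 2 ^ b < (i + 1) * 2 ^ b
      rw [add_mul, one_mul]
      omega
    · intro v
      rw [hidl]
      constructor
      · intro h
        exact ⟨_, Finset.mem_image_of_mem _ h, (hblk _ _).mpr rfl⟩
      · rintro ⟨z, hz, h1⟩
        obtain ⟨i, hi, rfl⟩ := Finset.mem_image.mp hz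
        rw [(hblk i v).mp h1]
        exact hi
    · intro z hz z' hz' hne
      obtain ⟨i, hi, rfl⟩ := Finset.mem_image.mp hz
      obtain ⟨j, hj, rfl⟩ := Finset.mem_image.mp hz'
      have hij : i ≠ j := fun h => hne (by rw [h])
      rcases Nat.lt_or_gt_of_ne hij with h | h
      · left
        exact Nat.mul_le_mul_right _ h
      · right
        exact Nat.mul_le_mul_right _ h
  exact ⟨{
    Z := fun t => (itm S.m S.X b t).image (fun i => (i * 2 ^ b, (i + 1) * 2 ^ b))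
    E := fun _ _ _ => 0
    re := fun _ => 0
    part := hpart
    al := by
      intro t z hz
      obtain ⟨i, hi, rfl⟩ := Finset.mem_image.mp hz
      exact ⟨Dvd.intro_left _ rfl, Dvd.intro_left _ rfl⟩
    st := by
      intro t ht z hz
      obtain ⟨i, hi, rfl⟩ := Finset.mem_image.mp hz
      have hbs : ∀ u, bs P b u (i * 2 ^ b, (i + 1) * 2 ^ b) = P u i := by
        intro u
        unfold bs
        simp only [Nat.mul_div_cancel _ hpos]
        rw [Finset.sum_Ico_succ_top (le_refl i), Finset.Ico_self, Finset.sum_empty, zero_add]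
      have h1 : Idl S.m S.X b (b + 1) t (i * 2 ^ b) := by
        rw [hidl, Nat.mul_div_cancel _ hpos]
        exact hi
      have h2 : Idl S.m S.X b (b + 1) t ((i + 1) * 2 ^ b - 1) := by
        rw [hidl]
        have e : ((i + 1) * 2 ^ b - 1) / 2 ^ b = i := by
          apply (hblk i _).mp
          rw [add_mul, one_mul]
          omega
        rw [e]
        exact hi
      have h3 := idl_rng hH.rng hb h1
      have h4 := idl_rng hH.rng hb h2
      have h5 : 0 < 2 ^ A := by positivity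
      have h6 : 0 < (i + 1) * 2 ^ b := by positivity
      simp only [hbs, one_mul, add_zero]
      exact hP t ht i (by omega) (by omega)
    step := by simp
    zero := by simp
    sum := by simp
    const := by
      intro t ht
      simp only [itm_succ ht]
    cnt := by
      have h1 := act_cnt (b := b) hH (Nat.le_succ b) hb
      have h2 : ∀ t, ((itm S.m S.X b t).image
          (fun i => (i * 2 ^ b, (i + 1) * 2 ^ b))).card ≤ 2 * (act S.m S.X (b + 1) t).card :=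
        fun t => Finset.card_image_le.trans itm_card
      calc 2 ^ b * ∑ t ∈ (Finset.range S.m).filter (fun t => 2 ^ b ∣ t),
            ((itm S.m S.X b t).image (fun i => (i * 2 ^ b, (i + 1) * 2 ^ b))).card
          ≤ 2 ^ b * ∑ t ∈ (Finset.range S.m).filter (fun t => 2 ^ b ∣ t),
            2 * (act S.m S.X (b + 1) t).card :=
            Nat.mul_le_mul_left _ (Finset.sum_le_sum fun t _ => h2 t)
        _ = 2 * (2 ^ b * ∑ t ∈ (Finset.range S.m).filter (fun t => 2 ^ b ∣ t),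
            (act S.m S.X (b + 1) t).card) := by
            rw [← Finset.mul_sum]
            ring
        _ ≤ 2 * D := Nat.mul_le_mul_left _ h1 }⟩

/-- **Module AK_PM.** -/
theorem psc_mono {r' ν' : ℕ} (h : PSc S D b a c0 c μ r ν) (hr : r ≤ r') (hν : ν ≤ ν') :
    PSc S D b a c0 c μ r' ν' := by
  intro P hP
  obtain ⟨Q⟩ := h P hP
  exact ⟨{
    Z := Q.Z
    E := Q.E
    re := Q.re
    part := Q.part
    al := Q.al
    st := Q.st
    step := Q.step
    zero := Q.zero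
    sum := Q.sum.trans (Nat.mul_le_mul_right _ hr)
    const := Q.const
    cnt := Q.cnt.trans (Nat.mul_le_mul_right _ hν) }⟩

/-- **Module AK_PM.** -/
theorem sch_mono {r' : ℕ} (h : Sch S D b a c0 c μ r) (hr : r ≤ r') : Sch S D b a c0 c μ r' := by
  intro P hP
  obtain ⟨Q⟩ := h P hP
  exact ⟨{
    E := Q.E
    re := Q.re
    st := Q.st
    step := Q.step
    zero := Q.zero
    sum := Q.sum.trans (Nat.mul_le_mul_right _ hr) }⟩

end Pool.Agent.SplAk
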